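import Pool.Agent.H10x.QW.Lang

/-!
# The language of the marked indices is in exact unique `QMA`
-/

set_option autoImplicit false

namespace Pool.Agent.H10x.QW

open Pool.Agent.NPC Pool.Agent.H622R2 Pool.Agent.H620R2.Gauge Finset
open Pool.Agent.H9x.Q (Basis bit ket ket_norm put bit_put_self bit_put_ne put_put put_bit)

variable {m d : ℕ}

theorem sum_refl {l : List ℕ} {k : ℕ} {b f : List Bool → Bool} (ψ : Basis m → ℂ) (z : Basis m) :
    ∑ w : Basis l.length, (refl k b f : Matrix _ _ ℂ) (rd z l) w * ψ (wr z l w) =
      ψ z - 2 * ∑ w : Basis l.length, proj k b f (rd z l) w * ψ (wr z l w) := by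
  have h1 : ∀ w : Basis l.length, (refl k b f : Matrix _ _ ℂ) (rd z l) w * ψ (wr z l w) =
      (1 : Matrix _ _ ℂ) (rd z l) w * ψ (wr z l w) -
      2 * (proj k b f (rd z l) w * ψ (wr z l w)) := by
    intro w
    unfold refl
    rw [Matrix.sub_apply, Matrix.add_apply]
    ring
  rw [sum_congr rfl fun w _ => h1 w, sum_sub_distrib, ← mul_sum]
  congr 1
  rw [Finset.sum_eq_single (rd z l)]
  · rw [Matrix.one_apply_eq, one_mul, wr_rd]
  · intro w _ hw
    rw [Matrix.one_apply_ne (Ne.symm hw), zero_mul]
  · intro h
    exact absurd (mem_univ _) h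

/-- the contents of the list with the input `x` and the witness `y` -/
def cb (d : ℕ) (x : List Bool) {q : ℕ} (y : Basis q) : Basis (ll d x.length).length := fun i =>
  if i.1 < x.length then x.getD i.1 false else bit y (i.1 - x.length)

theorem xs_eq_iff (hd : d ≤ 1) {x : List Bool} (u : Basis (ll d x.length).length) :
    xs u = x ↔ ∀ i : Fin (ll d x.length).length, i.1 < x.length → u i = x.getD i.1 false := by
  have hlen : (ll d x.length).length / 2 = x.length := by
    rw [length_ll]
    omega
  constructor
  · intro h i hi
    have h1 : (xs u)[i.1]? = some (u i) := by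
      unfold xs
      rw [List.getElem?_ofFn, dif_pos (by omega)]
    rw [h] at h1
    rw [List.getD_eq_getElem?_getD, h1]
    rfl
  · intro h
    apply List.ext_getElem
    · unfold xs
      rw [List.length_ofFn, hlen]
    · intro i h1 h2
      have h3 : i < (ll d x.length).length := by
        rw [length_ll]
        omega
      have h4 := h ⟨i, h3⟩ h2
      simp only at h4
      unfold xs
      rw [List.getElem_ofFn, h4, List.getD_eq_getElem _ _ h2]

theorem xs_cb (hd : d ≤ 1) (x : List Bool) {q : ℕ} (y : Basis q) : xs (cb d x y) = x := by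
  rw [xs_eq_iff hd]
  intro i hi
  unfold cb
  rw [if_pos hi]

theorem rd_lt {x : List Bool} (z : Basis m) (i : Fin (ll d x.length).length)
    (hi : i.1 < x.length) : rd z (ll d x.length) i = bit z i.1 := by
  unfold rd
  rw [List.get_eq_getElem, get_ll_lt i.2 hi]

theorem rd_ge {x : List Bool} (z : Basis m) (i : Fin (ll d x.length).length)
    (hi : x.length ≤ i.1) : rd z (ll d x.length) i = bit z (i.1 + 1) := by
  unfold rd
  rw [List.get_eq_getElem, get_ll_ge i.2 hi]

/-- the condition of the initial state -/
theorem cond_iff (hd : d ≤ 1) {x : List Bool} (z : Basis ((VF d).qubits x.length)) :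
    (∀ i, (i < x.length + 1 ∨ x.length + 1 + (VF d).wit.eval x.length ≤ i) →
      bit z i = x.getD i false) ↔
    xs (rd z (ll d x.length)) = x ∧ bit z x.length = false ∧
      bit z (2 * x.length + d + 1) = false := by
  have hw := wit_VF d x.length
  have hq := qubits_VF d x.length
  rw [hw]
  constructor
  · intro h
    refine ⟨(xs_eq_iff hd _).2 fun i hi => ?_, ?_, ?_⟩
    · rw [rd_lt z i hi]
      exact h _ (by omega)
    · rw [h _ (by omega), List.getD_eq_default _ _ (by omega)]
    · rw [h _ (by omega), List.getD_eq_default _ _ (by omega)]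
  · rintro ⟨h1, h2, h3⟩ i hi
    rcases Nat.lt_trichotomy i x.length with h | h | h
    · have h4 : i < (ll d x.length).length := by
        rw [length_ll]
        omega
      have h5 := (xs_eq_iff hd _).1 h1 ⟨i, h4⟩ h
      rw [rd_lt z ⟨i, h4⟩ h] at h5
      exact h5
    · rw [h, h2, List.getD_eq_default _ _ (by omega)]
    · rw [List.getD_eq_default _ _ (by omega)]
      rcases Nat.lt_or_ge i (2 * x.length + d + 2) with h6 | h6
      · have : i = 2 * x.length + d + 1 := by omega
        rw [this, h3]
      · exact Pool.Agent.H9x.Q.bit_of_le (by omega)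

/-- the witness -/
noncomputable def wit0 (d : ℕ) (x : List Bool) (k : ℕ) (f : List Bool → Bool)
    (y : Basis ((VF d).wit.eval x.length)) : ℂ := ((amp k f (cb d x y) : ℝ) : ℂ)

theorem cb_inj {x : List Bool} {y y' : Basis ((VF d).wit.eval x.length)}
    (h : cb d x y = cb d x y') : y = y' := by
  have hw := wit_VF d x.length
  funext j
  have hj := j.2
  have h2 : x.length + j.1 < (ll d x.length).length := by
    rw [length_ll]
    omega
  have h3 := congrFun h ⟨x.length + j.1, h2⟩
  simp only [cb] at h3
  rw [if_neg (by omega), if_neg (by omega)] at h3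
  have e : x.length + j.1 - x.length = j.1 := by omega
  rw [e] at h3
  unfold bit at h3
  rw [dif_pos hj, dif_pos hj] at h3
  exact h3

theorem eq_cb (hd : d ≤ 1) {x : List Bool} {u : Basis (ll d x.length).length} (hu : xs u = x) :
    cb d x (fun j : Fin ((VF d).wit.eval x.length) => bit u (x.length + j.1)) = u := by
  have hw := wit_VF d x.length
  have h2 := (xs_eq_iff hd u).1 hu
  funext i
  unfold cb
  split_ifs with hi
  · exact (h2 i hi).symm
  · have h3 := i.2
    have hL := length_ll d x.length
    unfold bit
    rw [dif_pos (show i.1 - x.length < Polynomial.eval x.length (VF d).wit by omega)]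
    simp only
    have e : x.length + (i.1 - x.length) = i.1 := by omega
    simp only [e]
    rw [dif_pos i.2]

theorem isState_wit0 (hd : d ≤ 1) {x : List Bool} {k : ℕ} (f : List Bool → Bool)
    (hk : (ll d x.length).length / 2 + k ≤ (ll d x.length).length) :
    IsState (wit0 d x k f) := by
  unfold IsState
  have h1 := sum_amp hk f (cb d x (fun _ : Fin ((VF d).wit.eval x.length) => false))
  rw [← h1]
  refine sum_of_injOn (cb d x) (fun y _ y' _ h => cb_inj h) ?_ ?_ ?_
  · intro y _
    simp only [coe_filter, mem_univ, true_and, Set.mem_ofPred_eq, xs_cb hd]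
  · intro u hu hu'
    exfalso
    apply hu'
    rw [mem_filter, xs_cb hd] at hu
    exact ⟨_, by simp, eq_cb hd hu.2.symm⟩
  · intro y _
    unfold wit0
    rw [Complex.norm_real, Real.norm_eq_abs, sq_abs]

/-- the projection of a state -/
theorem sum_proj (hd : d ≤ 1) {x : List Bool} {k : ℕ} {b f : List Bool → Bool}
    (φ : Basis ((VF d).wit.eval x.length) → ℂ) (z : Basis ((VF d).qubits x.length)) :
    ∑ w : Basis (ll d x.length).length, proj k b f (rd z (ll d x.length)) w *
      (VF d).start x φ (wr z (ll d x.length) w) =
    if b x = true ∧ xs (rd z (ll d x.length)) = x ∧ bit z x.length = false ∧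
        bit z (2 * x.length + d + 1) = false then
      ((amp k f (rd z (ll d x.length)) : ℝ) : ℂ) * ∑ y, star (wit0 d x k f y) * φ y
    else 0 := by
  have hw := wit_VF d x.length
  set l := ll d x.length with hl
  have hlen : l.length = 2 * x.length + d := length_ll _ _
  have hnd : l.Nodup := nodup_ll _ _
  have hlt : ∀ q ∈ l, q < (VF d).qubits x.length := by
    intro q hq
    rw [hl, mem_ll] at hq
    rw [qubits_VF]
    omega
  have hn : x.length ∉ l := by
    rw [hl, mem_ll]
    omega
  have hc : 2 * x.length + d + 1 ∉ l := by
    rw [hl, mem_ll]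
    omega
  have hstart : ∀ w : Basis l.length, (VF d).start x φ (wr z l w) ≠ 0 →
      xs w = x ∧ bit z x.length = false ∧ bit z (2 * x.length + d + 1) = false := by
    intro w h
    unfold Verifier.start at h
    have h1 : ∀ i, (i < x.length + 1 ∨ x.length + 1 + (VF d).wit.eval x.length ≤ i) →
      bit (wr z l w) i = x.getD i false := by
      by_contra hcon
      exact h (if_neg hcon)
    rw [cond_iff hd, ← hl, rd_wr hnd hlt, bit_wr hn, bit_wr hc] at h1
    exact h1
  have hval : bit z x.length = false → bit z (2 * x.length + d + 1) = false → ∀ y,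
      (VF d).start x φ (wr z l (cb d x y)) = φ y := by
    intro h1 h2 y
    unfold Verifier.start
    rw [if_pos]
    · congr 1
      funext j
      have hj := j.2
      have h3 : x.length + j.1 < l.length := by omega
      have h4 := congrFun (rd_wr hnd hlt z (cb d x y)) ⟨x.length + j.1, h3⟩
      have h5 := rd_ge (wr z l (cb d x y)) ⟨x.length + j.1, h3⟩ (by simp)
      have h6 : bit (wr z l (cb d x y)) (x.length + j.1 + 1) = cb d x y ⟨x.length + j.1, h3⟩ :=
        h5.symm.trans h4
      have e : x.length + 1 + j.1 = x.length + j.1 + 1 := by omega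
      rw [e, h6]
      unfold cb
      rw [if_neg (by simp)]
      simp only [Nat.add_sub_cancel_left]
      unfold bit
      rw [dif_pos hj]
    · rw [cond_iff hd, ← hl, rd_wr hnd hlt, bit_wr hn, bit_wr hc]
      exact ⟨xs_cb hd x y, h1, h2⟩
  by_cases h : b x = true ∧ xs (rd z l) = x ∧ bit z x.length = false ∧
      bit z (2 * x.length + d + 1) = false
  · rw [if_pos h]
    obtain ⟨h1, h2, h3, h4⟩ := h
    rw [mul_sum]
    symm
    refine sum_of_injOn (cb d x) (fun y _ y' _ h => cb_inj h) (fun _ _ => mem_univ _) ?_ ?_
    · intro w _ hw'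
      by_cases h5 : (VF d).start x φ (wr z l w) = 0
      · rw [h5, mul_zero]
      · exact absurd ⟨_, by simp, eq_cb hd (hstart w h5).1⟩ hw'
    · intro y _
      rw [hval h3 h4, proj_apply, if_pos ⟨by rw [h2]; exact h1, by rw [h2, xs_cb hd]⟩]
      unfold wit0
      rw [RCLike.star_def, Complex.conj_ofReal]
      push_cast
      ring
  · rw [if_neg h]
    refine sum_eq_zero fun w _ => ?_
    by_cases h5 : (VF d).start x φ (wr z l w) = 0
    · rw [h5, mul_zero]
    · obtain ⟨h6, h7⟩ := hstart w h5
      rw [proj_apply, if_neg, zero_mul]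
      rintro ⟨h8, h9⟩
      rw [h6] at h9
      rw [h9] at h8
      exact h ⟨h8, h9, h7⟩

theorem start_wit0 (hd : d ≤ 1) {x : List Bool} (k : ℕ) (f : List Bool → Bool)
    (z : Basis ((VF d).qubits x.length)) : (VF d).start x (wit0 d x k f) z =
      if xs (rd z (ll d x.length)) = x ∧ bit z x.length = false ∧
        bit z (2 * x.length + d + 1) = false then
        ((amp k f (rd z (ll d x.length)) : ℝ) : ℂ) else 0 := by
  have hw := wit_VF d x.length
  unfold Verifier.start
  by_cases h : xs (rd z (ll d x.length)) = x ∧ bit z x.length = false ∧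
      bit z (2 * x.length + d + 1) = false
  · rw [if_pos h, if_pos ((cond_iff hd z).2 h)]
    unfold wit0
    congr 2
    funext i
    unfold cb
    split_ifs with hi
    · exact ((xs_eq_iff hd _).1 h.1 i hi).symm
    · have h1 := i.2
      have hL := length_ll d x.length
      rw [rd_ge z i (by omega)]
      unfold bit
      rw [dif_pos (show i.1 - x.length < Polynomial.eval x.length (VF d).wit by omega)]
      simp only
      have e : x.length + 1 + (i.1 - x.length) = i.1 + 1 := by omega
      simp only [e]
  · rw [if_neg h, if_neg fun h' => h ((cond_iff hd z).1 h')]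

/-- **The language of the marked indices is in exact unique `QMA`.** -/
theorem lang_exact (P : Par) (κ : Dat) (hd : d ≤ 1) :
    IsUQMA (fun n => P.k (2 * n + d)) (P.A κ) (P.V κ)
      {x | (κ (2 * x.length + d)).1 x = true} := by
  refine ⟨VF d, fun x => ?_⟩
  have hw := wit_VF d x.length
  set l := ll d x.length with hl
  have hlen : l.length = 2 * x.length + d := length_ll _ _
  have hmat : (P.V κ).mat l.length = refl (P.k l.length) (κ l.length).1 (κ l.length).2 :=
    Par.V_mat κ _
  have hset : (x ∈ {x : List Bool | (κ (2 * x.length + d)).1 x = true}) ↔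
      (κ l.length).1 x = true := by
    rw [hlen]
    rfl
  have hst : IsState (wit0 d x (P.k l.length) (κ l.length).2) := isState_wit0 hd _ (P.hk _)
  have hone : ∑ y, star (wit0 d x (P.k l.length) (κ l.length).2 y) *
      wit0 d x (P.k l.length) (κ l.length).2 y = 1 := by
    have h1 : (((∑ y, ‖wit0 d x (P.k l.length) (κ l.length).2 y‖ ^ 2 : ℝ)) : ℂ) = 1 := by
      unfold IsState at hst
      rw [hst]
      norm_num
    rw [← h1]
    push_cast
    refine sum_congr rfl fun y _ => ?_
    rw [RCLike.star_def, Complex.conj_mul']
  rw [hset]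
  constructor
  · intro hx
    refine ⟨wit0 d x (P.k l.length) (κ l.length).2, hst, ?_, ?_, ?_⟩
    · rintro w ⟨i, hi, hbit⟩
      simp only at hi
      unfold wit0
      have h1 : ¬ Pd (P.k l.length) (cb d x w) := by
        intro h
        have hiw : i < (VF d).wit.eval x.length := by
          by_contra hcon
          rw [Pool.Agent.H9x.Q.bit_of_le (by omega)] at hbit
          exact absurd hbit (by simp)
        have h2 : x.length + i < l.length := by
          rw [hlen]
          omega
        have hh : P.k (2 * x.length + d) = P.k l.length := by rw [hlen]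
        have hL : (ll d x.length).length = 2 * x.length + d := length_ll _ _
        have h3 := h ⟨x.length + i, h2⟩ (by
          simp only
          omega)
        unfold cb at h3
        rw [if_neg (by simp only; omega)] at h3
        simp only [Nat.add_sub_cancel_left] at h3
        rw [hbit] at h3
        exact absurd h3 (by simp)
      unfold amp
      rw [if_neg h1]
      simp
    · refine acc_one hst fun z => ?_
      rw [← hl, hmat, sum_refl, sum_proj hd, hone, mul_one, start_wit0 hd]
      rw [← hl]
      by_cases h : xs (rd z l) = x ∧ bit z x.length = false ∧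
        bit z (2 * x.length + d + 1) = false
      · rw [if_pos h, if_pos ⟨hx, h⟩]
        ring
      · rw [if_neg h, if_neg fun h' => h h'.2]
        ring
    · intro φ _ horth
      refine acc_zero fun z => ?_
      rw [← hl, hmat, sum_refl, sum_proj hd, horth, mul_zero]
      split_ifs <;> ring
  · intro hx φ _
    refine acc_zero fun z => ?_
    rw [← hl, hmat, sum_refl, sum_proj hd, if_neg fun h => hx h.1]
    ring

end Pool.Agent.H10x.QW
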