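import Pool.Agent.H10x.QW.Diag
import Pool.Agent.H10x.QW.Lang2

/-!
# The parameters
-/

set_option autoImplicit false

namespace Pool.Agent.H10x.QW

open Pool.Agent.NPC Pool.Agent.H622R2 Pool.Agent.H620R2.Gauge Pool.Agent.H622R2.Exp
  Pool.Agent.TH678.ETH Pool.Agent.TH678.SETH Pool.Agent.TH678.RS Filter Finset
open Pool.Agent.H9x.Q (Basis bit ket ket_norm)

/-- the number of the qubits of the hidden states -/
def kk (α : ℕ → ℕ) (m : ℕ) : ℕ := min (m - m / 2) ((bt α m + 1) * Nat.log 2 m)

/-- the lengths up to which the operator on `m` qubits is not noticed -/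
def RR (α : ℕ → ℕ) (m : ℕ) : ℕ := 2 ^ ((kk α m - 14) / 3)

theorem kk_le (α : ℕ → ℕ) (m : ℕ) : m / 2 + kk α m ≤ m := by
  have : kk α m ≤ m - m / 2 := min_le_left _ _
  omega

theorem kk_mono {α : ℕ → ℕ} (hα : Monotone α) : Monotone (kk α) := fun a b h =>
  min_le_min (by omega) (Nat.mul_le_mul (Nat.add_le_add_right (bt_mono hα h) 1)
    (Nat.log_mono_right h))

theorem RR_mono {α : ℕ → ℕ} (hα : Monotone α) : Monotone (RR α) := fun a b h => by
  have := kk_mono hα h
  exact Nat.pow_le_pow_right (by norm_num) (by omega)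

theorem RR_cube (α : ℕ → ℕ) (m : ℕ) : RR α m ≤ 1 ∨ 2 ^ 14 * RR α m ^ 3 ≤ 2 ^ kk α m := by
  unfold RR
  rcases Nat.lt_or_ge (kk α m) 14 with h | h
  · left
    have : (kk α m - 14) / 3 = 0 := by omega
    rw [this]
    norm_num
  · right
    rw [← pow_mul, ← pow_add]
    exact Nat.pow_le_pow_right (by norm_num) (by omega)

theorem two_pow_kk (α : ℕ → ℕ) {m : ℕ} (hm : 1 ≤ m) : 2 ^ kk α m ≤ m ^ (bt α m + 1) := by
  calc 2 ^ kk α m ≤ 2 ^ ((bt α m + 1) * Nat.log 2 m) :=
        Nat.pow_le_pow_right (by norm_num) (min_le_right _ _)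
    _ = (2 ^ Nat.log 2 m) ^ (bt α m + 1) := by rw [← pow_mul, mul_comm]
    _ ≤ m ^ (bt α m + 1) := Nat.pow_le_pow_left (Nat.pow_log_le_self 2 (by omega)) _

theorem RR_far {α : ℕ → ℕ} (hα : Monotone α) (s m : ℕ) (hs : 1 ≤ s) (h : m ≤ s) :
    RR α m ≤ s ^ (bt α s + 1) := by
  rcases Nat.eq_zero_or_pos m with h0 | h0
  · subst h0
    have : kk α 0 = 0 := by simp [kk]
    unfold RR
    rw [this]
    exact Nat.one_le_pow _ _ hs
  · have h1 : RR α m ≤ 2 ^ kk α m := Nat.pow_le_pow_right (by norm_num) (by omega)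
    refine h1.trans ((two_pow_kk α h0).trans ?_)
    calc m ^ (bt α m + 1) ≤ s ^ (bt α m + 1) := Nat.pow_le_pow_left h _
      _ ≤ s ^ (bt α s + 1) := Nat.pow_le_pow_right hs (by have := bt_mono hα h; omega)

theorem RR_sup {α : ℕ → ℕ} (hα' : Tendsto α atTop atTop) : Sup (RR α) := by
  intro Q N
  obtain ⟨D, _, hD⟩ := YAux.poly_bound Q
  set a := 3 * D + 16 with ha
  obtain ⟨j, h1, h2, h3, h4⟩ := (((ev_poly (a + 1) 1).and
    (((tendsto_add_atTop_nat 1).eventually (hα'.eventually_ge_atTop a)).and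
    ((eventually_ge_atTop a).and (eventually_ge_atTop N))))).exists
  rw [pow_one] at h1
  have hj1 : 1 ≤ j := by omega
  have hNj : N ≤ 2 ^ j := h4.trans Nat.lt_two_pow_self.le
  have hpow : 2 * 2 ^ j = 2 ^ (j + 1) := by rw [pow_succ]; ring
  have hk : (a + 1) * (j + 1) ≤ kk α (2 * 2 ^ j) := by
    unfold kk
    refine le_min ?_ ?_
    · omega
    · rw [hpow, bt_pow, Nat.log_pow (by norm_num)]
      refine Nat.mul_le_mul_right _ ?_
      have : a ≤ min (α (j + 1)) (j + 1) := le_min h2 (by omega)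
      omega
  have hQ : Q.eval (2 ^ j) ≤ 2 ^ ((j + 1) * D) := by
    refine (hD _).trans ?_
    rw [pow_mul]
    refine Nat.pow_le_pow_left ?_ _
    have : 2 ^ 1 ≤ 2 ^ j := Nat.pow_le_pow_right (by norm_num) hj1
    omega
  have hR : (j + 1) * D ≤ (kk α (2 * 2 ^ j) - 14) / 3 := by
    have e : (a + 1) * (j + 1) = 3 * ((j + 1) * D) + 17 * (j + 1) := by
      rw [ha]; ring
    omega
  refine ⟨2 ^ j, hNj, hQ.trans (Nat.pow_le_pow_right (by norm_num) hR),
    hQ.trans (Nat.pow_le_pow_right (by norm_num) ?_)⟩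
  have h5 : kk α (2 * 2 ^ j) ≤ 2 * 2 ^ j - 2 * 2 ^ j / 2 := min_le_left _ _
  omega

/-- **The circuits of a verifier have polynomial size.** -/
theorem Verifier.size (F : Verifier) : ∃ P : Polynomial ℕ, ∀ n,
    (F.circ n).length ≤ P.eval n ∧ Short (P.eval n) (F.circ n) := by
  obtain ⟨p, hp⟩ := (poly_of_polyTime F.poly).sz_le
  refine ⟨p.comp (Polynomial.C 4 * Polynomial.X + Polynomial.C 1), fun n => ?_⟩
  have h1 : sz (F.circ n) ≤ (p.comp (Polynomial.C 4 * Polynomial.X + Polynomial.C 1)).eval n := by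
    have h2 := hp (List.replicate n true)
    have h3 := sz_listBool_ge (bits (F.circ (List.replicate n true).length))
    rw [bits_length] at h3
    have h4 := eval_mono p (sz_listBool_le (List.replicate n true))
    rw [List.length_replicate] at h2 h3 h4
    simp only [Polynomial.eval_comp, Polynomial.eval_add, Polynomial.eval_mul, Polynomial.eval_C,
      Polynomial.eval_X]
    omega
  refine ⟨(length_lt_sz _).le.trans h1, fun l r h => ?_, fun c l h => ?_⟩
  · have h5 : sz (Gate.std (.query l r)) < sz (F.circ n) := sz_le_of_mem h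
    have h7 : sz l < sz (Gate.std (.query l r)) := by
      show sz l < sz (Gate.std (.query l r)).data
      simp only [Gate.data, sz_inl]
      have : sz l < sz (Pool.Agent.H9x.Q.Gate.query l r) := by
        show sz l < sz (Pool.Agent.H9x.Q.Gate.query l r).data
        simp only [Pool.Agent.H9x.Q.Gate.data, sz_inr, sz_pair]
        omega
      omega
    have h8 := length_lt_sz l
    omega
  · have h5 : sz (Gate.uni c l) < sz (F.circ n) := sz_le_of_mem h
    have h7 : sz l < sz (Gate.uni c l) := by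
      show sz l < sz (Gate.uni c l).data
      simp only [Gate.data, sz_inr, sz_pair]
      omega
    have h8 := length_lt_sz l
    omega

instance Verifier.countable : Countable Verifier := by
  have h1 : Countable {D : List Bool → List Bool | PolyTime D} := countable_polyTime.to_subtype
  have h2 := CC.poly_countable
  let G : Verifier → {D : List Bool → List Bool | PolyTime D} × Polynomial ℕ × Polynomial ℕ :=
    fun F => (⟨_, F.poly⟩, F.wit, F.anc)
  have hG : Function.Injective G := by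
    intro F F' h
    obtain ⟨c, p, w, a⟩ := F
    obtain ⟨c', p', w', a'⟩ := F'
    simp only [G, Prod.mk.injEq, Subtype.mk.injEq] at h
    obtain ⟨h1, rfl, rfl⟩ := h
    have : c = c' := by
      funext n
      have h3 := congrFun h1 (List.replicate n true)
      simp only [List.length_replicate] at h3
      exact bits_injective h3
    subst this
    rfl
  exact hG.countable

/-- **The parameters.** -/
theorem exists_par {α : ℕ → ℕ} (hα : Monotone α) : ∃ P : Par, P.b = bt α ∧ P.k = kk α ∧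
    P.R = RR α := by
  obtain ⟨g, hg⟩ := CC.exists_enum
  have : Nonempty Verifier := ⟨VF 0⟩
  have := CC.poly_countable
  obtain ⟨GH, hGH⟩ := exists_surjective_nat (Verifier × Polynomial ℕ × ℕ)
  set G : ℕ → Verifier := fun e => (GH e).1 with hG
  set H : ℕ → Polynomial ℕ × ℕ := fun e => (GH e).2 with hH
  choose bb hbb using fun e : ℕ => CC.act_length (g e).1 (g e).2
  choose sp hsp using fun e : ℕ => (G e).size
  set S : ℕ → Polynomial ℕ := fun e => bb e + sp e + (G e).wit + (G e).anc + Polynomial.C 2 *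
    Polynomial.X + Polynomial.C (e + 1) with hS
  have hSe : ∀ e n, (S e).eval n = (bb e).eval n + (sp e).eval n + (G e).wit.eval n +
      (G e).anc.eval n + 2 * n + (e + 1) := by
    intro e n
    rw [hS]
    simp
  refine ⟨⟨g, G, H, S, bt α, kk α, RR α, hg, hGH, kk_le α, RR_cube α, RR_mono hα, RR_far hα,
    fun e n => by rw [hSe]; omega, fun e x a ha => ?_, fun e n => ?_⟩, rfl, rfl, rfl⟩
  · have h3 := hbb e x a ha
    rw [hSe]
    omega
  · obtain ⟨h1, h2⟩ := hsp e n
    rw [hSe]
    refine ⟨by omega, ⟨fun l r h => (h2.1 l r h).trans (by omega),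
      fun c l h => (h2.2 c l h).trans (by omega)⟩, ?_⟩
    unfold Verifier.qubits
    omega

/-- the number of the qubits of the witness -/
theorem kk_bound {α : ℕ → ℕ} (hα : Monotone α) {d : ℕ} (hd : d ≤ 1) (n : ℕ) :
    kk α (2 * n + d) ≤ (α n + 1) * (Nat.log 2 n + 1) := by
  rcases Nat.eq_zero_or_pos n with h0 | h0
  · subst h0
    have : kk α (2 * 0 + d) = 0 := by
      unfold kk
      have : Nat.log 2 (2 * 0 + d) = 0 := by
        rw [Nat.log_eq_zero_iff]
        left
        omega
      rw [this]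
      simp
    rw [this]
    exact Nat.zero_le _
  have h1 : Nat.log 2 (2 * n + d) = Nat.log 2 n + 1 := by
    rw [Nat.log_of_one_lt_of_le (by norm_num) (by omega)]
    have : (2 * n + d) / 2 = n := by omega
    rw [this]
  have h2 : Nat.log 2 (2 * n + d) ≤ n := by
    rw [h1]
    exact Nat.log_lt_self 2 (by omega)
  have h3 : bt α (2 * n + d) ≤ α n := (min_le_left _ _).trans (hα h2)
  calc kk α (2 * n + d) ≤ (bt α (2 * n + d) + 1) * Nat.log 2 (2 * n + d) := min_le_right _ _
    _ ≤ (α n + 1) * (Nat.log 2 n + 1) := by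
      rw [h1]
      exact Nat.mul_le_mul_right _ (by omega)

theorem IsUQMA.mono {s s' : ℕ → ℕ} (h : ∀ n, s n ≤ s' n) {A : Oracle} {U : UOracle}
    {L : Set (List Bool)} (hL : IsUQMA s A U L) : IsUQMA s' A U L := by
  obtain ⟨F, hF⟩ := hL
  refine ⟨F, fun x => ⟨fun hx => ?_, (hF x).2⟩⟩
  obtain ⟨φ, h1, h2, h3⟩ := (hF x).1 hx
  refine ⟨φ, h1, ?_, h3⟩
  rintro w ⟨i, hi, hw⟩
  exact h2 w ⟨i, (h _).trans hi, hw⟩

/-- **The world.** -/
theorem world (α : ℕ → ℕ) (hα : Monotone α) (hα' : Tendsto α atTop atTop) :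
    ∃ (A : Oracle) (U : UOracle),
      (∀ L, IsPSPACE A L → IsP A L) ∧
      (∀ Y N, IsQCPH A U Y N → ∃ L, IsP A L ∧ Y ⊆ L ∧ Disjoint N L) ∧
      (∀ Y N, IsQMA A U Y N → ∃ L, IsTime α A L ∧ Y ⊆ L ∧ Disjoint N L) ∧
      ∃ L, IsUQMA (fun n => (α n + 1) * (Nat.log 2 n + 1)) A U L ∧
        IsUQMA (fun n => (α n + 1) * (Nat.log 2 n + 1)) A U Lᶜ ∧ ¬ IsQCPHpoly A U L Lᶜ := by
  obtain ⟨P, hb, hk, hR⟩ := exists_par hα
  have hsup : Sup P.R := by
    rw [hR]
    exact RR_sup hα'
  obtain ⟨r, hreq⟩ := exists_r hsup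
  have hgood := kap_good P P.mono (dbl r)
  refine ⟨P.A (kap P (dbl r)), P.V (kap P (dbl r)), fun L => pspace_in_p _,
    fun Y N => qcph_in_p hgood, fun Y N => qma_in_time hα hb _, {x | r x.length x = true}, ?_, ?_,
    lang_hard hreq fun x => Iff.rfl⟩
  · have h1 := lang_exact P (kap P (dbl r)) (d := 0) (by norm_num)
    have h2 : {x : List Bool | r x.length x = true} =
        {x | (kap P (dbl r) (2 * x.length + 0)).1 x = true} := by
      ext x
      rw [Set.mem_ofPred_eq, Set.mem_ofPred_eq, kap_fst]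
      unfold dbl
      rw [if_pos (by omega)]
      have : (2 * x.length + 0) / 2 = x.length := by omega
      rw [this]
    rw [h2]
    refine h1.mono fun n => ?_
    rw [hk]
    exact kk_bound hα (by norm_num) n
  · have h1 := lang_exact P (kap P (dbl r)) (d := 1) le_rfl
    have h2 : {x : List Bool | r x.length x = true}ᶜ =
        {x | (kap P (dbl r) (2 * x.length + 1)).1 x = true} := by
      ext x
      rw [Set.mem_compl_iff, Set.mem_ofPred_eq, Set.mem_ofPred_eq, kap_fst]
      unfold dbl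
      rw [if_neg (by omega)]
      have : (2 * x.length + 1) / 2 = x.length := by omega
      rw [this]
      simp
    rw [h2]
    refine h1.mono fun n => ?_
    rw [hk]
    exact kk_bound hα le_rfl n

end Pool.Agent.H10x.QW
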