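import Pool.Agent.H10x.QW.Fool

/-!
# The unitary oracle is not noticed by the verifiers with classical witnesses
-/

set_option autoImplicit false

namespace Pool.Agent.H10x.QW

open Pool.Agent.NPC Pool.Agent.H622R2 Pool.Agent.H620R2.Gauge Pool.Agent.H622R2.Exp
  Pool.Agent.TH678.ETH Pool.Agent.TH678.SETH Pool.Agent.TH678.RS Filter Finset
open Pool.Agent.H9x.Q (Basis bit ket ket_norm)
open Pool.Agent.R562.QH (nrm nrm_sq nrm_nonneg nrm_add_le nrm_congr)

variable {P : Par}

/-- the basis state with the input `x` and the witness `y` -/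
def emb (F : Verifier) (x : List Bool) (y : Basis (F.wit.eval x.length)) :
    Basis (F.qubits x.length) := fun i =>
  if h : x.length + 1 ≤ i.1 ∧ i.1 < x.length + 1 + F.wit.eval x.length then
    y ⟨i.1 - (x.length + 1), by omega⟩ else x.getD i.1 false

theorem bit_emb (F : Verifier) (x : List Bool) (y : Basis (F.wit.eval x.length)) (i : ℕ)
    (hi : i < x.length + 1 ∨ x.length + 1 + F.wit.eval x.length ≤ i) :
    bit (emb F x y) i = x.getD i false := by
  unfold bit
  split_ifs with h
  · unfold emb
    rw [dif_neg (by simp only; omega)]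
  · unfold Verifier.qubits at h
    rw [List.getD_eq_default _ _ (by omega)]

theorem bit_emb_wit (F : Verifier) (x : List Bool) (y : Basis (F.wit.eval x.length))
    (j : Fin (F.wit.eval x.length)) : bit (emb F x y) (x.length + 1 + j) = y j := by
  have hj := j.2
  have h1 : x.length + 1 + j.1 < F.qubits x.length := by
    unfold Verifier.qubits
    omega
  unfold bit
  rw [dif_pos h1]
  unfold emb
  rw [dif_pos (by simp only; omega)]
  congr 1
  apply Fin.ext
  simp

theorem start_emb (F : Verifier) (x : List Bool) (φ : Basis (F.wit.eval x.length) → ℂ)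
    (y : Basis (F.wit.eval x.length)) : F.start x φ (emb F x y) = φ y := by
  unfold Verifier.start
  rw [if_pos fun i hi => bit_emb F x y i hi]
  congr 1
  funext j
  exact bit_emb_wit F x y j

theorem eq_emb (F : Verifier) (x : List Bool) (z : Basis (F.qubits x.length))
    (h : ∀ i, (i < x.length + 1 ∨ x.length + 1 + F.wit.eval x.length ≤ i) →
      bit z i = x.getD i false) : z = emb F x fun j => bit z (x.length + 1 + j) := by
  funext i
  unfold emb
  have h0 : z i = bit z i.1 := by
    unfold bit
    rw [dif_pos i.2]
  split_ifs with h1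
  · rw [h0]
    congr 1
    simp only
    omega
  · rw [h0, h _ (by omega)]

theorem start_norm (F : Verifier) (x : List Bool) (φ : Basis (F.wit.eval x.length) → ℂ) :
    ∑ z, ‖F.start x φ z‖ ^ 2 = ∑ y, ‖φ y‖ ^ 2 := by
  symm
  refine sum_of_injOn (emb F x) ?_ (fun _ _ => mem_univ _) ?_ ?_
  · intro y _ y' _ h
    funext j
    rw [← bit_emb_wit F x y j, h, bit_emb_wit]
  · intro z _ hz
    unfold Verifier.start
    rw [if_neg, norm_zero]
    · norm_num
    · intro h
      exact hz ⟨_, mem_univ _, (eq_emb F x z h).symm⟩
  · intro y _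
    rw [start_emb]

theorem nrm_eq_one {m : ℕ} {φ : Basis m → ℂ} (h : ∑ z, ‖φ z‖ ^ 2 = 1) : nrm φ = 1 := by
  have h1 : nrm φ ^ 2 = 1 := by rw [nrm_sq, h]
  have h2 := nrm_nonneg φ
  nlinarith [sq_nonneg (nrm φ - 1)]

theorem nrm_start (F : Verifier) (x : List Bool) {φ : Basis (F.wit.eval x.length) → ℂ}
    (h : IsState φ) : nrm (F.start x φ) = 1 := nrm_eq_one (by rw [start_norm]; exact h)

/-- **The approximation.** -/
theorem approx {κ : Dat} (hgood : ∀ m, GoodAt P κ m (κ m).2) (e : ℕ) (x : List Bool)
    (w : Basis ((P.G e).wit.eval x.length)) :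
    |(P.G e).acc (P.A κ) (P.V κ) x (ket w) -
      (P.G e).acc (P.A κ) (P.U κ ((P.S e).eval x.length)) x (ket w)| ≤ 1 / 8 := by
  set s := (P.S e).eval x.length with hs
  have hs1 : 1 ≤ s := le_trans (by omega) (P.big e _)
  have hn : nrm ((P.G e).start x (ket w)) = 1 := nrm_start _ _ (ket_norm w)
  have h1 := prob_diff (fun z => bit z x.length)
    (u := run (P.A κ) (P.V κ) ((P.G e).circ x.length) ((P.G e).start x (ket w)))
    (v := run (P.A κ) (P.U κ s) ((P.G e).circ x.length) ((P.G e).start x (ket w)))
    (by rw [nrm_run, hn]) (by rw [nrm_run, hn])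
  have h2 := hybrid (P.A κ) (P.U κ s) (P.V κ) (ε := 1 / (16 * s)) ((P.G e).circ x.length)
    ((P.G e).start x (ket w)) (by
      intro C₁ g C₂ hC
      have hs0 : (0 : ℝ) < s := by exact_mod_cast hs1
      have h0 : nrm (0 : Basis ((P.G e).qubits x.length) → ℂ) = 0 := by
        have := nrm_sq (0 : Basis ((P.G e).qubits x.length) → ℂ)
        simp at this
        exact this
      have hsame : ∀ φ : Basis ((P.G e).qubits x.length) → ℂ,
          g.act (P.A κ) (P.V κ) φ = g.act (P.A κ) (P.U κ s) φ →
          nrm (g.act (P.A κ) (P.V κ) φ - g.act (P.A κ) (P.U κ s) φ) ≤ 1 / (16 * s) := by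
        intro φ h
        rw [h, sub_self, h0]
        positivity
      cases g with
      | std g => exact hsame _ rfl
      | uni c l =>
        by_cases hR : P.R l.length ≤ s
        · refine hsame _ ?_
          funext z
          simp only [Gate.act]
          rw [Par.V_mat, Par.U_pos hR]
        · rw [act_one (Par.U_neg hR)]
          have h3 := hgood l.length e x w C₁ c l C₂ (by omega) hC rfl
          have h4 := nrm_of_fine (T := 16 * P.R l.length) (by positivity) (P.hk l.length)
            (by rw [nrm_run, hn]) h3 (A := P.A κ) (c := c) (Par.V_mat κ l.length)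
          have h5 : (2 : ℝ) ^ 14 * (P.R l.length : ℝ) ^ 3 ≤ 2 ^ P.k l.length := by
            rcases P.hR l.length with h | h
            · omega
            · exact_mod_cast h
          set r : ℝ := (P.R l.length : ℝ) with hr
          have hr1 : (s : ℝ) < r := by
            rw [hr]
            exact_mod_cast not_le.1 hR
          have hr0 : 0 < r := hs0.trans hr1
          have h6 : 4 * (16 * r) / 2 ^ P.k l.length ≤ (1 / (16 * s)) ^ 2 := by
            have hK : (0 : ℝ) < 2 ^ P.k l.length := by positivity
            rw [div_le_iff₀ hK]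
            have h7 : (1 / (16 * (s : ℝ))) ^ 2 = 1 / (256 * s ^ 2) := by
              field_simp
              norm_num
            rw [h7]
            have h8 : 1 / (256 * (s : ℝ) ^ 2) * (2 ^ 14 * r ^ 3) ≤
                1 / (256 * s ^ 2) * 2 ^ P.k l.length :=
              mul_le_mul_of_nonneg_left h5 (by positivity)
            refine le_trans ?_ h8
            have h9 : 1 / (256 * (s : ℝ) ^ 2) * (2 ^ 14 * r ^ 3) = 64 * r * (r ^ 2 / s ^ 2) := by
              field_simp
              ring
            rw [h9]
            have h10 : 1 ≤ r ^ 2 / s ^ 2 := by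
              rw [le_div_iff₀ (by positivity)]
              nlinarith
            nlinarith
          have h7 := h4.trans h6
          exact le_of_sq_le_sq h7 (by positivity))
  have h3 : (((P.G e).circ x.length).length : ℝ) ≤ s := by exact_mod_cast (P.siz e x.length).1
  have hs0 : (0 : ℝ) < s := by exact_mod_cast hs1
  have h4 : (((P.G e).circ x.length).length : ℝ) * (1 / (16 * s)) ≤ 1 / 16 := by
    calc (((P.G e).circ x.length).length : ℝ) * (1 / (16 * s)) ≤ s * (1 / (16 * s)) := by
          gcongr
      _ = 1 / 16 := by field_simp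
  unfold Verifier.acc
  linarith

end Pool.Agent.H10x.QW
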