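import Pool.Agent.H9x.Q.Defs

/-!
# Quantum verifiers with a classical oracle and a unitary oracle; `QMA` and `QCMA`
-/

set_option autoImplicit false

namespace Pool.Agent.H10x.QW

open Pool.Agent.NPC Pool.Agent.H620R2.Gauge Finset
open Pool.Agent.H9x.Q (Basis bit ket)

/-- A unitary oracle: for every `k` a unitary operator on `k` qubits which is its own inverse. -/
structure UOracle : Type where
  /-- the operator on `k` qubits -/
  mat : (k : ℕ) → Matrix (Basis k) (Basis k) ℂ
  /-- it is unitary -/
  unitary : ∀ k, mat k ∈ Matrix.unitaryGroup (Basis k) ℂ
  /-- it is its own inverse -/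
  invol : ∀ k, mat k * mat k = 1

/-- The gates: the gates of `H9x.Q` (Hadamard gate, phase gate `diag (1, exp (i π / 4))`,
controlled negation, and the gate of the classical oracle), and the gate of the unitary oracle which
applies the operator on `k` qubits to the `k` qubits in the list `l` if the qubit `c` is one. -/
inductive Gate : Type
  | std (g : Pool.Agent.H9x.Q.Gate) : Gate
  | uni (c : ℕ) (l : List ℕ) : Gate

/-- a gate as structured data -/
def Gate.data : Gate → Pool.Agent.H9x.Q.Gate ⊕ (ℕ × List ℕ)
  | .std g => .inl g
  | .uni c l => .inr (c, l)

theorem Gate.data_injective : Function.Injective Gate.data := by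
  intro a b h
  cases a <;> cases b <;> simp [Gate.data] at h <;> simp [h]

/-- Gates are coded as structured data. -/
instance : TEnc Gate := ⟨fun g => toT g.data, fun _ _ h => Gate.data_injective (TEnc.inj h)⟩

variable {m : ℕ}

/-- The values of the qubits in the list `l`. -/
def rd (z : Basis m) (l : List ℕ) : Basis l.length := fun i => bit z (l.get i)

/-- The basis state `z` with the values of the qubits in the list `l` replaced by `w`. -/
def wr (z : Basis m) (l : List ℕ) (w : Basis l.length) : Basis m := fun i =>
  if h : i.1 ∈ l then w ⟨l.idxOf i.1, List.idxOf_lt_length_of_mem h⟩ else z i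

/-- The action of a gate on a state `ψ` of `m` qubits, relative to the oracles. (The gate of the
unitary oracle acts as the identity if the qubits in the list are not different qubits, or if one of
them is the control.) -/
noncomputable def Gate.act (A : Oracle) (U : UOracle) : Gate → (Basis m → ℂ) → (Basis m → ℂ)
  | .std g, ψ => g.act A ψ
  | .uni c l, ψ => fun z =>
    if l.Nodup ∧ (∀ q ∈ l, q < m) ∧ c ∉ l ∧ bit z c = true then
      ∑ w : Basis l.length, U.mat l.length (rd z l) w * ψ (wr z l w)
    else ψ z

/-- The final state of the circuit `C` started in the state `ψ`. -/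
noncomputable def run (A : Oracle) (U : UOracle) : List Gate → (Basis m → ℂ) → (Basis m → ℂ)
  | [], ψ => ψ
  | g :: C, ψ => run A U C (g.act A U ψ)

/-- `φ` is a state (a unit vector). -/
def IsState (φ : Basis m → ℂ) : Prop := ∑ z, ‖φ z‖ ^ 2 = 1

/-- A verifier: a polynomial-time uniform family of quantum circuits with gates for the two oracles.
The circuit for the inputs of length `n` has `n` input qubits, one qubit for the answer, `wit n`
qubits for the witness and `anc n` ancillary qubits. -/
structure Verifier : Type where
  /-- the circuit for the inputs of length `n` -/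
  circ : ℕ → List Gate
  /-- its code is computed in polynomial time from any string of length `n` -/
  poly : PolyTime (fun u : List Bool => bits (circ u.length))
  /-- the number of qubits of the witness -/
  wit : Polynomial ℕ
  /-- the number of ancillary qubits -/
  anc : Polynomial ℕ

/-- the number of the qubits of the circuit for the inputs of length `n` -/
def Verifier.qubits (F : Verifier) (n : ℕ) : ℕ := n + 1 + F.wit.eval n + F.anc.eval n

open scoped Classical in
/-- The initial state on the input `x` and the witness `φ`: the first qubits contain `x`, the qubits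
after the answer qubit contain the witness, and all the other qubits are `0`. -/
noncomputable def Verifier.start (F : Verifier) (x : List Bool)
    (φ : Basis (F.wit.eval x.length) → ℂ) : Basis (F.qubits x.length) → ℂ := fun z =>
  if ∀ i, (i < x.length + 1 ∨ x.length + 1 + F.wit.eval x.length ≤ i) → bit z i = x.getD i false then
    φ (fun j => bit z (x.length + 1 + j))
  else 0

/-- The probability that the verifier accepts the input `x` with the witness `φ`: the probability
that the answer qubit, the qubit number `|x|`, is one at the end. -/
noncomputable def Verifier.acc (F : Verifier) (A : Oracle) (U : UOracle) (x : List Bool)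
    (φ : Basis (F.wit.eval x.length) → ℂ) : ℝ :=
  ∑ z, if bit z x.length then ‖run A U (F.circ x.length) (F.start x φ) z‖ ^ 2 else 0

/-- The promise problem with the instances `Y` (yes) and `N` (no) is in `QMA` relative to the
oracles. -/
def IsQMA (A : Oracle) (U : UOracle) (Y N : Set (List Bool)) : Prop :=
  ∃ F : Verifier, ∀ x,
    (x ∈ Y → ∃ φ, IsState φ ∧ 2 / 3 ≤ F.acc A U x φ) ∧
    (x ∈ N → ∀ φ, IsState φ → F.acc A U x φ ≤ 1 / 3)

/-- `k` alternating quantifiers over the bit strings of length `p`, the first one existential if the
bit is `true` and universal if it is `false`, in front of the property `Φ` of the string formed by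
the given string and the quantified strings. -/
def Alt (p : ℕ) (Φ : List Bool → Prop) : ℕ → Bool → List Bool → Prop
  | 0, _, w => Φ w
  | k + 1, true, w => ∃ v : List Bool, v.length = p ∧ Alt p Φ k false (w ++ v)
  | k + 1, false, w => ∀ v : List Bool, v.length = p → Alt p Φ k true (w ++ v)

/-- The probability that the verifier accepts the input `x` with the classical witness `w`. -/
noncomputable def Verifier.accC (F : Verifier) (A : Oracle) (U : UOracle) (x w : List Bool) : ℝ :=
  F.acc A U x (ket fun i => w.getD i false)

/-- The promise problem is in `QCPH` relative to the oracles: a constant number of alternating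
quantifiers over bit strings of polynomial length in front of a quantum verifier. The first level,
`k = 1`, is `QCMA`. -/
def IsQCPH (A : Oracle) (U : UOracle) (Y N : Set (List Bool)) : Prop :=
  ∃ (F : Verifier) (p : Polynomial ℕ) (k : ℕ), ∀ x,
    (x ∈ Y → Alt (p.eval x.length) (fun w => 2 / 3 ≤ F.accC A U x w) k true []) ∧
    (x ∈ N → Alt (p.eval x.length) (fun w => F.accC A U x w ≤ 1 / 3) k false [])

/-- The promise problem is in `QCPH` with polynomial advice, relative to the oracles: the input of
the verifier is the pair of an advice string, which depends only on the length of `x` and has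
polynomially bounded length, and of `x`. -/
def IsQCPHpoly (A : Oracle) (U : UOracle) (Y N : Set (List Bool)) : Prop :=
  ∃ (F : Verifier) (p : Polynomial ℕ) (k : ℕ) (q : Polynomial ℕ) (h : ℕ → List Bool),
    (∀ n, (h n).length ≤ q.eval n) ∧ ∀ x,
    (x ∈ Y → Alt (p.eval (pairBits (h x.length) x).length)
      (fun w => 2 / 3 ≤ F.accC A U (pairBits (h x.length) x) w) k true []) ∧
    (x ∈ N → Alt (p.eval (pairBits (h x.length) x).length)
      (fun w => F.accC A U (pairBits (h x.length) x) w ≤ 1 / 3) k false [])

/-- The language `L` is in exact unique `QMA` with witnesses of `s n` qubits (followed by zeros):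
for the inputs in `L` some such witness is accepted with probability one and all witnesses
orthogonal to it with probability zero, and for the others every witness is accepted with
probability zero. -/
def IsUQMA (s : ℕ → ℕ) (A : Oracle) (U : UOracle) (L : Set (List Bool)) : Prop :=
  ∃ F : Verifier, ∀ x,
    (x ∈ L → ∃ ψ, IsState ψ ∧ (∀ w, (∃ i, s x.length ≤ i ∧ bit w i = true) → ψ w = 0) ∧
      F.acc A U x ψ = 1 ∧
      ∀ φ, IsState φ → ∑ w, star (ψ w) * φ w = 0 → F.acc A U x φ = 0) ∧
    (x ∉ L → ∀ φ, IsState φ → F.acc A U x φ = 0)

/-- The language `L` is decided in time `n ^ O(α n)` relative to `A`: the input `x`, together with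
`(|x| + 2) ^ (C * (α |x| + 1))` ones, is decided in polynomial time relative to `A`. -/
def IsTime (α : ℕ → ℕ) (A : Oracle) (L : Set (List Bool)) : Prop :=
  ∃ (C : ℕ) (V : List Bool → List Bool), IsFP A V ∧ ∀ x : List Bool,
    x ∈ L ↔ V (pairBits (List.replicate ((x.length + 2) ^ (C * (α x.length + 1))) true) x) = [true]

end Pool.Agent.H10x.QW
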