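import Pool.Agent.H10x.QW.Upper

/-!
# The language of the marked indices is not in `QCPH` with polynomial advice
-/

set_option autoImplicit false

namespace Pool.Agent.H10x.QW

open Pool.Agent.NPC Pool.Agent.H622R2 Pool.Agent.H620R2.Gauge Pool.Agent.H622R2.Exp
  Pool.Agent.TH678.ETH Pool.Agent.TH678.SETH Pool.Agent.TH678.RS Filter Finset
open Pool.Agent.H9x.Q (Basis bit ket ket_norm)
open Pool.Agent.H9x.V1 (hs mem_hs card_hs finite_ext)

variable {P : Par}

theorem length_qq (P : Par) (e : ℕ) (y : List Bool) :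
    (qq P e y).length ≤ 2 * (P.S e).eval y.length + 4 := by
  unfold qq
  rw [List.length_cons, List.length_cons, length_cS]
  have := P.big e y.length
  omega

/-- the marked indices: the strings in the set for the even numbers of qubits and the strings
which are not in the set for the odd numbers -/
def dbl (r : ℕ → List Bool → Bool) (m : ℕ) (x : List Bool) : Bool :=
  if m % 2 = 0 then r (m / 2) x else !r (m / 2) x

/-- the requirement -/
def Req (P : Par) (e : ℕ) (q : Polynomial ℕ) (r : ℕ → List Bool → Bool) : Prop :=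
  ∀ h : ℕ → List Bool, (∀ n, (h n).length ≤ q.eval n) →
    ¬ ∀ x : List Bool, (r x.length x = true ↔
      P.A (kap P (dbl r)) (qq P e (pairBits (h x.length) x)) = true)

/-- the size condition -/
def Sup (R : ℕ → ℕ) : Prop := ∀ (Q : Polynomial ℕ) (N : ℕ), ∃ n, N ≤ n ∧ Q.eval n ≤ R (2 * n) ∧
  Q.eval n ≤ 2 ^ n

theorem stage (hsup : Sup P.R) (e : ℕ) (q : Polynomial ℕ) (N : ℕ) (r : ℕ → List Bool → Bool) :
    ∃ (r' : ℕ → List Bool → Bool) (N' : ℕ), (∀ s < N, r' s = r s) ∧
      ∀ r'' : ℕ → List Bool → Bool, (∀ s < N', r'' s = r' s) → Req P e q r'' := by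
  classical
  obtain ⟨n, hnN, hn1, hn2⟩ := hsup (Polynomial.C 2 * (P.S e).comp (Polynomial.C 2 * q +
    Polynomial.C 1 + Polynomial.X) + Polynomial.C 5 + q) N
  simp only [Polynomial.eval_add, Polynomial.eval_mul, Polynomial.eval_C, Polynomial.eval_comp,
    Polynomial.eval_X] at hn1 hn2
  set T := 2 * (P.S e).eval (2 * q.eval n + 1 + n) + 4 with hT
  have hTR : T ≤ P.R (2 * n) := by omega
  have hq2 : q.eval n + 1 < 2 ^ n := by omega
  -- the functions computed with advice
  let fn : List Bool → (Basis n → Bool) := fun h x =>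
    P.A (kap P (dbl r)) (qq P e (pairBits h (List.ofFn x)))
  have hex : ∃ t : Basis n → Bool, t ∉ (hs (q.eval n)).image fn := by
    by_contra hcon
    push Not at hcon
    have h1 : (univ : Finset (Basis n → Bool)) ⊆ (hs (q.eval n)).image fn := fun r _ => hcon r
    have h2 := (card_le_card h1).trans (card_image_le.trans (card_hs _))
    rw [card_univ, Fintype.card_fun, Fintype.card_bool, Fintype.card_fun, Fintype.card_bool,
      Fintype.card_fin] at h2
    have h3 := (Nat.pow_lt_pow_iff_right (show 1 < 2 by norm_num)).2 hq2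
    omega
  obtain ⟨t, ht⟩ := hex
  refine ⟨fun s => if s < n then r s else ofB t, n + 1, fun s hs => ?_, ?_⟩
  · simp only
    rw [if_pos (by omega)]
  intro r'' hr'' h hh hcon
  apply ht
  rw [mem_image]
  refine ⟨h n, mem_hs (hh n), ?_⟩
  funext x
  have hlen : (List.ofFn x).length = n := List.length_ofFn
  have h1 := hcon (List.ofFn x)
  rw [hlen, hr'' n (by omega)] at h1
  simp only [lt_irrefl, if_false] at h1
  rw [ofB_ofFn] at h1
  have h2 : P.A (kap P (dbl r'')) (qq P e (pairBits (h n) (List.ofFn x))) =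
      P.A (kap P (dbl r)) (qq P e (pairBits (h n) (List.ofFn x))) := by
    refine A_loc' P (N := T) (fun m hm => ?_) _ ?_
    · have hm2 : m < 2 * n := by
        by_contra hc
        have := P.mono (not_lt.1 hc)
        omega
      refine kap_loc P (N := 2 * n) (fun s hs => ?_) m hm2
      have hs2 : r'' (s / 2) = r (s / 2) := by
        rw [hr'' (s / 2) (by omega)]
        exact if_pos (by omega)
      funext y
      unfold dbl
      rw [hs2]
    · refine (length_qq P e _).trans ?_
      rw [length_pairBits, hlen, hT]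
      have h3 : (P.S e).eval (2 * (h n).length + 1 + n) ≤ (P.S e).eval (2 * q.eval n + 1 + n) :=
        eval_mono _ (by have := hh n; omega)
      omega
  show P.A (kap P (dbl r)) (qq P e (pairBits (h n) (List.ofFn x))) = t x
  rw [← h2, Bool.eq_iff_iff]
  exact h1.symm

/-- **Data for which the language of the marked indices is hard.** -/
theorem exists_r (hsup : Sup P.R) : ∃ r : ℕ → List Bool → Bool,
    ∀ (e : ℕ) (q : Polynomial ℕ), Req P e q r := by
  have h2 := CC.poly_countable
  obtain ⟨en, hen⟩ := exists_surjective_nat (ℕ × Polynomial ℕ)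
  obtain ⟨r, _, hr⟩ := finite_ext (β := List Bool → Bool) (fun _ _ => True)
    (fun j r => Req P (en j).1 (en j).2 r) ⟨fun _ _ => false, fun _ => trivial⟩
    (fun j N r _ => by
      obtain ⟨r', N', h1, h2⟩ := stage hsup (en j).1 (en j).2 N r
      exact ⟨r', N', fun _ => trivial, h1, fun r'' _ h => h2 r'' h⟩)
  refine ⟨r, fun e q => ?_⟩
  obtain ⟨j, hj⟩ := hen (e, q)
  have := hr j
  rw [hj] at this
  exact this

/-- **The language of the marked indices is not in `QCPH` with polynomial advice.** -/
theorem lang_hard {r : ℕ → List Bool → Bool} (hr : ∀ (e : ℕ) (q : Polynomial ℕ), Req P e q r)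
    {L : Set (List Bool)} (hL : ∀ x, x ∈ L ↔ r x.length x = true) :
    ¬ IsQCPHpoly (P.A (kap P (dbl r))) (P.V (kap P (dbl r))) L Lᶜ := by
  rintro ⟨F, p, k, q, h, hh, hF⟩
  obtain ⟨e, he⟩ := P.surj_G (F, (p, k))
  simp only [Prod.mk.injEq] at he
  obtain ⟨rfl, he2⟩ := he
  have hp : (P.H e).1 = p := by rw [he2]
  have hk : (P.H e).2 = k := by rw [he2]
  subst hp hk
  refine hr e q h hh fun x => ?_
  have hgood := kap_good P P.mono (dbl r)
  rw [← hL]
  constructor
  · intro hx
    exact cw_yes hgood e _ ((hF x).1 hx)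
  · intro hx
    by_contra hcon
    exact cw_no hgood e _ ((hF x).2 hcon) hx

end Pool.Agent.H10x.QW
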