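import Pool.Agent.H10x.QW.World
import Pool.Agent.H9x.V1.Low

/-!
# Phases which are not noticed by the verifiers with classical witnesses
-/

set_option autoImplicit false

namespace Pool.Agent.H10x.QW

open Pool.Agent.NPC Pool.Agent.H622R2 Pool.Agent.H620R2.Gauge Pool.Agent.H622R2.Exp
  Pool.Agent.TH678.ETH Pool.Agent.TH678.SETH Pool.Agent.TH678.RS Filter Finset
open Pool.Agent.H9x.Q (Basis bit ket)
open Pool.Agent.R562.QH (nrm nrm_sq nrm_nonneg nrm_add_le nrm_congr)
open Pool.Agent.H9x.V1 (hs mem_hs card_hs)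

variable {P : Par}

/-- the phases `f` for the operator on `m` qubits are not noticed by the verifiers -/
def GoodAt (P : Par) (κ : Dat) (m : ℕ) (f : List Bool → Bool) : Prop :=
  ∀ (e : ℕ) (x : List Bool) (w : Basis ((P.G e).wit.eval x.length)) (C₁ : List Gate) (c : ℕ)
    (l : List ℕ) (C₂ : List Gate), (P.S e).eval x.length < P.R m →
    (P.G e).circ x.length = C₁ ++ Gate.uni c l :: C₂ → l.length = m →
    Fine (16 * P.R m) f (P.k m) l
      (run (P.A κ) (P.U κ ((P.S e).eval x.length)) C₁ ((P.G e).start x (ket w)))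

theorem Short.left {B : ℕ} {C₁ C₂ : List Gate} (h : Short B (C₁ ++ C₂)) : Short B C₁ :=
  ⟨fun l r hl => h.1 l r (List.mem_append_left _ hl),
    fun c l hl => h.2 c l (List.mem_append_left _ hl)⟩

theorem goodAt_congr {κ κ' : Dat} {m : ℕ} {f : List Bool → Bool}
    (h : ∀ m', P.R m' < P.R m → κ m' = κ' m') (hf : GoodAt P κ m f) : GoodAt P κ' m f := by
  intro e x w C₁ c l C₂ h1 h2 h3
  have h4 := hf e x w C₁ c l C₂ h1 h2 h3
  rw [← U_loc P (κ := κ) (κ' := κ') fun m' hm' => h m' (by omega)]
  rw [run_congr (B := (P.S e).eval x.length) (A' := P.A κ) (U' := P.U κ ((P.S e).eval x.length))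
    (fun y hy => ?_) (fun _ _ => rfl)]
  · exact h4
  · have h5 := (P.siz e x.length).2.1
    rw [h2] at h5
    exact h5.left
  · exact (A_loc' P (fun m' hm' => h m' (by omega)) y hy).symm

/-- the list of the gate number `t` -/
def lst (C : List Gate) (t : ℕ) : List ℕ :=
  match C[t]? with
  | some (.uni _ l) => l
  | _ => []

theorem count_lt {R : ℕ} (hR : 1 ≤ R) :
    ((R * (2 ^ (R + 1) * (2 ^ R * R)) : ℕ) : ℝ) * (2 ^ R * (4 * Real.exp (-(16 * R) / 2))) < 1 := by
  have h1 : R ≤ 2 ^ R := Nat.lt_two_pow_self.le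
  have h2 : R * (2 ^ (R + 1) * (2 ^ R * R)) ≤ 2 ^ (4 * R + 1) := by
    calc R * (2 ^ (R + 1) * (2 ^ R * R)) ≤ 2 ^ R * (2 ^ (R + 1) * (2 ^ R * 2 ^ R)) := by gcongr
      _ = 2 ^ (4 * R + 1) := by
        rw [← pow_add, ← pow_add, ← pow_add]
        congr 1
        ring
  have h3 : ((R * (2 ^ (R + 1) * (2 ^ R * R)) : ℕ) : ℝ) ≤ 2 ^ (4 * R + 1) := by
    exact_mod_cast h2
  have h4 : Real.exp (-(16 * R) / 2) = (Real.exp 1)⁻¹ ^ (8 * R) := by
    rw [← Real.exp_neg, ← Real.exp_nat_mul]
    congr 1
    push_cast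
    ring
  have h5 : (2 : ℝ) < Real.exp 1 := by
    have := Real.exp_one_gt_d9
    linarith
  have h6 : (2 : ℝ) ^ (8 * R) < Real.exp 1 ^ (8 * R) := pow_lt_pow_left₀ h5 (by norm_num) (by omega)
  have h7 : (0 : ℝ) < Real.exp 1 ^ (8 * R) := by positivity
  rw [h4, inv_pow]
  calc ((R * (2 ^ (R + 1) * (2 ^ R * R)) : ℕ) : ℝ) * (2 ^ R * (4 * (Real.exp 1 ^ (8 * R))⁻¹)) ≤
        2 ^ (4 * R + 1) * (2 ^ R * (4 * (Real.exp 1 ^ (8 * R))⁻¹)) := by gcongr
    _ = 2 ^ (5 * R + 3) * (Real.exp 1 ^ (8 * R))⁻¹ := by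
        rw [show (4 : ℝ) = 2 ^ 2 by norm_num, ← mul_assoc, ← mul_assoc, ← pow_add, ← pow_add]
        congr 2
        ring
    _ ≤ 2 ^ (8 * R) * (Real.exp 1 ^ (8 * R))⁻¹ := by
        gcongr
        · norm_num
        · omega
    _ < Real.exp 1 ^ (8 * R) * (Real.exp 1 ^ (8 * R))⁻¹ := by
        refine mul_lt_mul_of_pos_right h6 (by positivity)
    _ = 1 := mul_inv_cancel₀ h7.ne'

theorem exists_good (P : Par) (κ : Dat) (m : ℕ) : ∃ f, GoodAt P κ m f := by
  classical
  rcases Nat.eq_zero_or_pos (P.R m) with h0 | h0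
  · exact ⟨fun _ => false, fun e x w C₁ c l C₂ h1 => absurd h1 (by omega)⟩
  set R := P.R m with hR
  -- the index set
  let J := (e : ℕ) × (x : List Bool) × Basis ((P.G e).wit.eval x.length) × ℕ
  let S : Finset J := (range R).sigma fun e =>
    ((hs R).filter fun x => (P.S e).eval x.length < R).sigma fun x =>
      ((univ : Finset (Basis ((P.G e).wit.eval x.length))) ×ˢ range R)
  let S' : Finset J := S.filter fun j => (lst ((P.G j.1).circ j.2.1.length) j.2.2.2).length = m
  have hmem : ∀ j ∈ S, (P.S j.1).eval j.2.1.length < R := by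
    intro j hj
    have h1 := mem_sigma.1 hj
    have h2 := mem_sigma.1 h1.2
    exact (mem_filter.1 h2.1).2
  have hcard : S.card ≤ R * (2 ^ (R + 1) * (2 ^ R * R)) := by
    simp only [S]
    rw [card_sigma]
    refine (sum_le_card_nsmul _ _ (2 ^ (R + 1) * (2 ^ R * R)) fun e _ => ?_).trans ?_
    · rw [card_sigma]
      refine (sum_le_card_nsmul _ _ (2 ^ R * R) fun x hx => ?_).trans ?_
      · rw [mem_filter] at hx
        rw [card_product, card_range, card_univ]
        refine Nat.mul_le_mul_right _ ?_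
        have h1 := (P.siz e x.length).2.2
        unfold Verifier.qubits at h1
        have h2 : Fintype.card (Basis ((P.G e).wit.eval x.length)) =
          2 ^ ((P.G e).wit.eval x.length) := by simp
        rw [h2]
        exact Nat.pow_le_pow_right (by norm_num) (by omega)
      · rw [smul_eq_mul]
        exact Nat.mul_le_mul_right _ ((card_filter_le _ _).trans (card_hs R))
    · rw [card_range, smul_eq_mul]
  obtain ⟨f, hf⟩ := exists_fine (J := J) S' (P.k m) (fun j => (P.G j.1).qubits j.2.1.length)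
    (fun j => lst ((P.G j.1).circ j.2.1.length) j.2.2.2)
    (fun j => run (P.A κ) (P.U κ ((P.S j.1).eval j.2.1.length))
      (((P.G j.1).circ j.2.1.length).take j.2.2.2) ((P.G j.1).start j.2.1 (ket j.2.2.1)))
    (m := m) (fun j hj => (mem_filter.1 hj).2) (B := R)
    (fun j hj => ((P.siz _ _).2.2).trans (hmem j (mem_filter.1 hj).1).le)
    (T := 16 * R) (by positivity) (by
      refine lt_of_le_of_lt ?_ (count_lt h0)
      refine mul_le_mul_of_nonneg_right ?_ (by positivity)
      exact_mod_cast (card_filter_le _ _).trans hcard)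
  refine ⟨f, fun e x w C₁ c l C₂ h1 h2 h3 => ?_⟩
  have hlen := (P.siz e x.length).1
  have hbig := P.big e x.length
  have ht : C₁.length < ((P.G e).circ x.length).length := by
    rw [h2]
    simp
  have hget : lst ((P.G e).circ x.length) C₁.length = l := by
    unfold lst
    rw [h2]
    simp
  have hj : (⟨e, x, w, C₁.length⟩ : J) ∈ S' := by
    rw [mem_filter]
    refine ⟨?_, ?_⟩
    · simp only [S, mem_sigma, mem_filter, mem_range, mem_product, mem_univ, true_and]
      exact ⟨by omega, ⟨mem_hs (by omega), h1⟩, by omega⟩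
    · show (lst ((P.G e).circ x.length) C₁.length).length = m
      rw [hget]
      exact h3
  have h4 := hf _ hj
  simp only at h4
  rw [hget] at h4
  have h5 : ((P.G e).circ x.length).take C₁.length = C₁ := by
    rw [h2, List.take_left]
  rw [h5] at h4
  exact h4

/-- the phases -/
noncomputable def Fc (P : Par) (κ : Dat) (m : ℕ) : List Bool → Bool := (exists_good P κ m).choose

theorem Fc_good (P : Par) (κ : Dat) (m : ℕ) : GoodAt P κ m (Fc P κ m) :=
  (exists_good P κ m).choose_spec

/-- the data with the marked indices `b` -/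
noncomputable def kap (P : Par) (b : ℕ → List Bool → Bool) (m : ℕ) :
    (List Bool → Bool) × (List Bool → Bool) :=
  (b m, Fc P (fun m' => if _h : m' < m then kap P b m' else (fun _ => false, fun _ => false)) m)
termination_by m

theorem kap_fst (P : Par) (b : ℕ → List Bool → Bool) (m : ℕ) : (kap P b m).1 = b m := by
  rw [kap]

theorem kap_loc (P : Par) {b b' : ℕ → List Bool → Bool} {N : ℕ} (h : ∀ m < N, b m = b' m) :
    ∀ m < N, kap P b m = kap P b' m := by
  intro m
  induction m using Nat.strong_induction_on with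
  | _ m ih =>
    intro hm
    rw [kap, kap, h m hm]
    congr 2
    funext m'
    by_cases h' : m' < m
    · rw [dif_pos h', dif_pos h', ih m' h' (by omega)]
    · rw [dif_neg h', dif_neg h']

theorem kap_good (P : Par) (hR : Monotone P.R) (b : ℕ → List Bool → Bool) (m : ℕ) :
    GoodAt P (kap P b) m (kap P b m).2 := by
  have h1 : (kap P b m).2 = Fc P (fun m' => if _h : m' < m then kap P b m' else
      (fun _ => false, fun _ => false)) m := by
    rw [kap]
  rw [h1]
  refine goodAt_congr (fun m' hm' => ?_) (Fc_good P _ m)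
  have h2 : m' < m := by
    by_contra hcon
    have := hR (not_lt.1 hcon)
    omega
  rw [dif_pos h2]

end Pool.Agent.H10x.QW
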