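import Pool.Agent.H10x.QW.Approx
import Pool.Agent.H622R2.CoNP

/-!
# The circuit which tests whether a state is reflected
-/

set_option autoImplicit false

namespace Pool.Agent.H10x.QW

open Pool.Agent.NPC Pool.Agent.H622R2 Pool.Agent.H620R2.Gauge Finset
open Pool.Agent.H9x.Q (Basis bit ket ket_norm put bit_put_self bit_put_ne put_put put_bit)
open Pool.Agent.R562.QH (nrm nrm_sq nrm_nonneg nrm_add_le nrm_congr)

/-- the qubits of the input and of the witness -/
def ll (d n : ℕ) : List ℕ := List.range n ++ (List.range (n + d)).map (fun i => n + 1 + i)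

theorem length_ll (d n : ℕ) : (ll d n).length = 2 * n + d := by
  simp [ll]; omega

theorem mem_ll {d n i : ℕ} : i ∈ ll d n ↔ i < n ∨ (n + 1 ≤ i ∧ i < 2 * n + d + 1) := by
  unfold ll
  rw [List.mem_append, List.mem_range, List.mem_map]
  refine or_congr_right ⟨?_, ?_⟩
  · rintro ⟨a, h1, rfl⟩
    rw [List.mem_range] at h1
    omega
  · rintro ⟨h1, h2⟩
    exact ⟨i - (n + 1), List.mem_range.2 (by omega), by omega⟩

theorem nodup_ll (d n : ℕ) : (ll d n).Nodup := by
  unfold ll
  rw [List.nodup_append]
  refine ⟨List.nodup_range, List.nodup_range.map fun a b h => by simpa using h, ?_⟩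
  intro a ha b hb
  rw [List.mem_range] at ha
  rw [List.mem_map] at hb
  obtain ⟨c, _, rfl⟩ := hb
  omega

theorem get_ll_lt {d n i : ℕ} (h : i < (ll d n).length) (hi : i < n) : (ll d n)[i] = i := by
  unfold ll
  rw [List.getElem_append_left (by simpa using hi)]
  simp

theorem get_ll_ge {d n i : ℕ} (h : i < (ll d n).length) (hi : n ≤ i) : (ll d n)[i] = i + 1 := by
  unfold ll
  rw [List.getElem_append_right (by simpa using hi)]
  simp
  omega

/-- the circuit of the verifier -/
def vc (d n : ℕ) : List Gate :=
  [.std (.had (2 * n + d + 1)), .uni (2 * n + d + 1) (ll d n), .std (.had (2 * n + d + 1)),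
    .std (.cnot (2 * n + d + 1) n)]

theorem poly_had {α : Type} [TEnc α] {q : α → ℕ} (h : Poly q) :
    Poly (fun a => Pool.Agent.H9x.Q.Gate.had (q a)) :=
  Poly.of_toT (f := fun a => Pool.Agent.H9x.Q.Gate.had (q a))
    (Poly.toT' (Poly.inl (γ := (ℕ × ℕ) ⊕ (List ℕ × ℕ)) (Poly.inl (γ := ℕ) h)))

theorem poly_cnot {α : Type} [TEnc α] {q r : α → ℕ} (h : Poly q) (h' : Poly r) :
    Poly (fun a => Pool.Agent.H9x.Q.Gate.cnot (q a) (r a)) :=
  Poly.of_toT (f := fun a => Pool.Agent.H9x.Q.Gate.cnot (q a) (r a)) (Poly.toT'
    (Poly.inr (β := ℕ ⊕ ℕ) (Poly.inl (γ := List ℕ × ℕ) (Poly.pair h h'))))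

theorem poly_std {α : Type} [TEnc α] {g : α → Pool.Agent.H9x.Q.Gate} (h : Poly g) :
    Poly (fun a => Gate.std (g a)) :=
  Poly.of_toT (f := fun a => Gate.std (g a)) (Poly.toT' (Poly.inl (γ := ℕ × List ℕ) h))

theorem poly_uni {α : Type} [TEnc α] {c : α → ℕ} {l : α → List ℕ} (hc : Poly c) (hl : Poly l) :
    Poly (fun a => Gate.uni (c a) (l a)) :=
  Poly.of_toT (f := fun a => Gate.uni (c a) (l a)) (Poly.toT'
    (Poly.inr (β := Pool.Agent.H9x.Q.Gate) (Poly.pair hc hl)))

theorem poly_ll {α : Type} [TEnc α] (d : ℕ) {n : α → ℕ} (hn : UPoly n) :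
    Poly (fun a => ll d (n a)) := by
  unfold ll
  exact Poly.append (UPoly.range hn) (NPC.Poly.map (UPoly.range (UPoly.add hn (UPoly.const d)))
    (Poly.add (Poly.add (hn.toPoly.comp (Poly.fst Poly.id)) (NPC.Poly.const 1))
      (Poly.snd Poly.id)))

theorem poly_vc {α : Type} [TEnc α] (d : ℕ) {n : α → ℕ} (hn : UPoly n) :
    Poly (fun a => vc d (n a)) := by
  unfold vc
  have hc : Poly (fun a => 2 * n a + d + 1) :=
    Poly.add (Poly.add (Poly.mul (NPC.Poly.const 2) hn.toPoly) (NPC.Poly.const d))
      (NPC.Poly.const 1)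
  exact Poly.cons (poly_std (poly_had hc)) (Poly.cons (poly_uni hc (poly_ll d hn))
    (Poly.cons (poly_std (poly_had hc)) (Poly.cons
      (poly_std (poly_cnot hc hn.toPoly)) (NPC.Poly.const []))))

/-- the verifier -/
noncomputable def VF (d : ℕ) : Verifier where
  circ := vc d
  poly := polyTime_bits (poly_vc d (UPoly.length Poly.id))
  wit := Polynomial.X + Polynomial.C d
  anc := 1

theorem wit_VF (d n : ℕ) : (VF d).wit.eval n = n + d := by simp [VF]

theorem qubits_VF (d n : ℕ) : (VF d).qubits n = 2 * n + d + 2 := by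
  simp [VF, Verifier.qubits]; omega

variable {m : ℕ}

theorem rd_put {l : List ℕ} {c : ℕ} (hc : c ∉ l) (z : Basis m) (b : Bool) :
    rd (put z c b) l = rd z l := by
  funext i
  unfold rd
  refine bit_put_ne (fun h => hc ?_) b
  rw [← h]
  exact List.get_mem l i

theorem wr_put {l : List ℕ} {c : ℕ} (hc : c ∉ l) (z : Basis m) (b : Bool) (w : Basis l.length) :
    wr (put z c b) l w = put (wr z l w) c b := by
  funext i
  by_cases h1 : i.1 ∈ l
  · have h2 : i.1 ≠ c := fun h => hc (h ▸ h1)
    simp only [wr, put, dif_pos h1, if_neg h2]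
  · simp only [wr, put, dif_neg h1]

/-- the effect of the circuit, if the state is an eigenvector of the operator -/
theorem run_vc {A : Oracle} {U : UOracle} {d n : ℕ} (hm : m = 2 * n + d + 2) (st : Basis m → ℂ)
    (θ : ℂ) (h0 : ∀ z, bit z (2 * n + d + 1) = true → st z = 0)
    (hU : ∀ z : Basis m, ∑ w : Basis (ll d n).length, U.mat (ll d n).length (rd z (ll d n)) w *
      st (wr z (ll d n) w) = θ * st z) (z : Basis m) :
    run A U (vc d n) st z =
      st (put (put z n (xor (bit z n) (bit z (2 * n + d + 1)))) (2 * n + d + 1) false) *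
        ((1 + (if bit z (2 * n + d + 1) then -1 else 1) * θ) / 2) := by
  have hc : 2 * n + d + 1 ∉ ll d n := by
    rw [mem_ll]
    omega
  have hlt : ∀ q ∈ ll d n, q < m := by
    intro q hq
    rw [mem_ll] at hq
    omega
  have hcm : 2 * n + d + 1 < m := by omega
  set c := 2 * n + d + 1 with hcdef
  have hr2 : (Real.sqrt 2 : ℂ) ≠ 0 := by
    rw [Ne, Complex.ofReal_eq_zero]
    positivity
  have hr : (Real.sqrt 2 : ℂ) * (Real.sqrt 2 : ℂ) = 2 := by
    rw [← Complex.ofReal_mul, Real.mul_self_sqrt (by norm_num)]
    norm_num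
  -- after the first gate
  have e1 : ∀ z : Basis m, (Gate.std (.had c)).act A U st z = st (put z c false) / Real.sqrt 2 := by
    intro z
    simp only [Gate.act, Pool.Agent.H9x.Q.Gate.act]
    rw [if_pos hcm, h0 (put z c true) (bit_put_self hcm true), mul_zero, add_zero]
  -- after the second gate
  have e2 : ∀ z : Basis m, (Gate.uni c (ll d n)).act A U ((Gate.std (.had c)).act A U st) z =
      (if bit z c then θ else 1) * (st (put z c false) / Real.sqrt 2) := by
    intro z
    simp only [Gate.act]
    by_cases hz : bit z c = true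
    · rw [if_pos ⟨nodup_ll d n, hlt, hc, hz⟩, if_pos hz]
      have h1 := hU (put z c false)
      rw [rd_put hc] at h1
      rw [← mul_div_assoc, ← h1, sum_div]
      refine sum_congr rfl fun w _ => ?_
      rw [wr_put hc]
      have h2 := e1 (wr z (ll d n) w)
      simp only [Gate.act] at h2
      rw [h2]
      ring
    · rw [if_neg (fun h => hz h.2.2.2), if_neg hz, one_mul]
      exact e1 z
  have e3 : ∀ z : Basis m, (Gate.std (.had c)).act A U ((Gate.uni c (ll d n)).act A U
      ((Gate.std (.had c)).act A U st)) z = st (put z c false) *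
        ((1 + (if bit z c then -1 else 1) * θ) / 2) := by
    intro z
    have h1 := e2 (put z c false)
    have h2 := e2 (put z c true)
    rw [bit_put_self hcm, put_put] at h1 h2
    have h3 : (Gate.std (.had c)).act A U ((Gate.uni c (ll d n)).act A U
      ((Gate.std (.had c)).act A U st)) z =
      ((Gate.uni c (ll d n)).act A U ((Gate.std (.had c)).act A U st) (put z c false) +
      (if bit z c then -1 else 1) *
        (Gate.uni c (ll d n)).act A U ((Gate.std (.had c)).act A U st) (put z c true)) /
        (Real.sqrt 2 : ℂ) := by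
      rw [show (Gate.std (.had c)).act A U ((Gate.uni c (ll d n)).act A U
        ((Gate.std (.had c)).act A U st)) z = (Pool.Agent.H9x.Q.Gate.had c).act A
          ((Gate.uni c (ll d n)).act A U ((Gate.std (.had c)).act A U st)) z from rfl]
      simp only [Pool.Agent.H9x.Q.Gate.act]
      rw [if_pos hcm]
    rw [h3, h1, h2]
    simp only [Bool.false_eq_true, if_false, if_true, one_mul]
    rw [← hr]
    field_simp
  have hne : c ≠ n := by omega
  have e4 : run A U (vc d n) st z = (Gate.std (.cnot c n)).act A U ((Gate.std (.had c)).act A U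
      ((Gate.uni c (ll d n)).act A U ((Gate.std (.had c)).act A U st))) z := rfl
  rw [e4]
  rw [show ∀ ψ : Basis m → ℂ, (Gate.std (.cnot c n)).act A U ψ z =
    ψ (put z n (xor (bit z n) (bit z c))) from fun ψ => by
      show (Pool.Agent.H9x.Q.Gate.cnot c n).act A ψ z = _
      simp only [Pool.Agent.H9x.Q.Gate.act]
      rw [if_neg hne]]
  rw [e3, bit_put_ne hne]

variable {d : ℕ}

theorem start_zero {x : List Bool} {φ : Basis ((VF d).wit.eval x.length) → ℂ}
    {z : Basis ((VF d).qubits x.length)} (i : ℕ) (hi : i = x.length ∨ i = 2 * x.length + d + 1)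
    (hz : bit z i = true) : (VF d).start x φ z = 0 := by
  unfold Verifier.start
  rw [if_neg]
  intro h
  have h1 := wit_VF d x.length
  have h2 := h i (by omega)
  rw [hz, List.getD_eq_default _ _ (by omega)] at h2
  exact absurd h2 (by simp)

/-- the state is not reflected: acceptance with probability zero -/
theorem acc_zero {A : Oracle} {U : UOracle} {x : List Bool}
    {φ : Basis ((VF d).wit.eval x.length) → ℂ}
    (hU : ∀ z : Basis ((VF d).qubits x.length), ∑ w : Basis (ll d x.length).length,
      U.mat (ll d x.length).length (rd z (ll d x.length)) w *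
        (VF d).start x φ (wr z (ll d x.length) w) =
      (VF d).start x φ z) : (VF d).acc A U x φ = 0 := by
  unfold Verifier.acc
  refine sum_eq_zero fun z _ => ?_
  split_ifs with hz
  · have h1 : run A U ((VF d).circ x.length) ((VF d).start x φ) z = 0 := by
      have h2 := run_vc (A := A) (U := U) (qubits_VF d x.length) ((VF d).start x φ) 1
        (fun z h => start_zero _ (Or.inr rfl) h) (fun z => by rw [hU z, one_mul]) z
      rw [show (VF d).circ x.length = vc d x.length from rfl, h2]
      by_cases hc : bit z (2 * x.length + d + 1) = true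
      · rw [if_pos hc]
        norm_num
      · rw [Bool.not_eq_true] at hc
        rw [start_zero x.length (Or.inl rfl), zero_mul]
        rw [bit_put_ne (by omega), bit_put_self (by rw [qubits_VF]; omega), hz, hc]
        rfl
    rw [h1, norm_zero]
    norm_num
  · rfl

/-- the state is reflected: acceptance with probability one -/
theorem acc_one {A : Oracle} {U : UOracle} {x : List Bool}
    {φ : Basis ((VF d).wit.eval x.length) → ℂ} (hφ : IsState φ)
    (hU : ∀ z : Basis ((VF d).qubits x.length), ∑ w : Basis (ll d x.length).length,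
      U.mat (ll d x.length).length (rd z (ll d x.length)) w *
        (VF d).start x φ (wr z (ll d x.length) w) =
      - (VF d).start x φ z) : (VF d).acc A U x φ = 1 := by
  have h1 : (VF d).acc A U x φ =
      ∑ z, ‖run A U ((VF d).circ x.length) ((VF d).start x φ) z‖ ^ 2 := by
    unfold Verifier.acc
    refine sum_congr rfl fun z _ => ?_
    split_ifs with hz
    · rfl
    · rw [Bool.not_eq_true] at hz
      have h2 := run_vc (A := A) (U := U) (qubits_VF d x.length) ((VF d).start x φ) (-1)
        (fun z h => start_zero _ (Or.inr rfl) h) (fun z => by rw [hU z, neg_one_mul]) z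
      rw [show (VF d).circ x.length = vc d x.length from rfl, h2]
      by_cases hc : bit z (2 * x.length + d + 1) = true
      · rw [start_zero x.length (Or.inl rfl), zero_mul, norm_zero]
        · norm_num
        · rw [bit_put_ne (by omega), bit_put_self (by rw [qubits_VF]; omega), hz, hc]
          rfl
      · rw [if_neg hc]
        norm_num
  rw [h1, ← nrm_sq, nrm_run, nrm_start _ _ hφ]
  norm_num

end Pool.Agent.H10x.QW
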