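import Pool.Agent.H10x.QW.Refl

/-!
# Random phases
-/

set_option autoImplicit false

namespace Pool.Agent.H10x.QW

open Pool.Agent.NPC Pool.Agent.H620R2.Gauge Finset
open Pool.Agent.H9x.Q (Basis bit ket)
open Pool.Agent.R562.QH (nrm nrm_sq nrm_nonneg nrm_add_le nrm_congr)

/-- the sign of a bit -/
def sg (b : Bool) : ℝ := if b then -1 else 1

theorem sg_sq (b : Bool) : sg b ^ 2 = 1 := by cases b <;> simp [sg]

theorem sum_exp {ι : Type} [Fintype ι] [DecidableEq ι] (a : ι → ℝ) :
    ∑ f : ι → Bool, Real.exp (∑ i, sg (f i) * a i) ≤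
      2 ^ Fintype.card ι * Real.exp ((∑ i, a i ^ 2) / 2) := by
  have h1 : ∑ f : ι → Bool, Real.exp (∑ i, sg (f i) * a i) =
      ∏ i, ∑ b : Bool, Real.exp (sg b * a i) := by
    rw [Finset.prod_univ_sum, Fintype.piFinset_univ]
    exact sum_congr rfl fun f _ => by rw [Real.exp_sum]
  have h2 : ∀ i, ∑ b : Bool, Real.exp (sg b * a i) ≤ 2 * Real.exp (a i ^ 2 / 2) := by
    intro i
    rw [Fintype.sum_bool]
    have h3 := Real.cosh_le_exp_half_sq (a i)
    rw [Real.cosh_eq] at h3
    simp only [sg, if_true, Bool.false_eq_true, if_false, one_mul, neg_mul]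
    linarith
  rw [h1]
  refine (prod_le_prod (fun i _ => sum_nonneg fun b _ => (Real.exp_pos _).le) fun i _ => h2 i).trans ?_
  rw [prod_mul_distrib, prod_const, card_univ, ← Real.exp_sum, sum_div]

/-- **The tail of a random sum.** -/
theorem tail {ι : Type} [Fintype ι] [DecidableEq ι] (a : ι → ℝ) {T : ℝ} (hT : 0 ≤ T) :
    ((univ.filter fun f : ι → Bool => T * ∑ i, a i ^ 2 < (∑ i, sg (f i) * a i) ^ 2).card : ℝ) ≤
      2 * Real.exp (-T / 2) * 2 ^ Fintype.card ι := by
  set s := ∑ i, a i ^ 2 with hs
  have hs0 : 0 ≤ s := sum_nonneg fun i _ => sq_nonneg _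
  rcases hs0.eq_or_lt with h0 | h0
  · have ha : ∀ i, a i = 0 := by
      intro i
      have h1 := (sum_eq_zero_iff_of_nonneg (fun i _ => sq_nonneg (a i))).1 h0.symm i (mem_univ i)
      exact pow_eq_zero_iff (by norm_num) |>.1 h1
    have h1 : (univ.filter fun f : ι → Bool => T * s < (∑ i, sg (f i) * a i) ^ 2) = ∅ := by
      rw [filter_eq_empty_iff]
      intro f _
      rw [← h0, sum_eq_zero fun i _ => by rw [ha i, mul_zero]]
      simp
    rw [h1]
    simp
    positivity
  set lam := Real.sqrt T / Real.sqrt s with hlam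
  have hrs : 0 < Real.sqrt s := Real.sqrt_pos.2 h0
  have hl0 : 0 ≤ lam := by positivity
  have hls : lam ^ 2 * s = T := by
    rw [hlam, div_pow, Real.sq_sqrt hT, Real.sq_sqrt hs0]
    field_simp
  -- the two exponential sums
  have e1 := sum_exp (fun i => lam * a i)
  have e2 := sum_exp (fun i => -(lam * a i))
  have e3 : ∑ i, (lam * a i) ^ 2 = T := by
    rw [← hls, hs, mul_sum]
    exact sum_congr rfl fun i _ => by ring
  have e4 : ∑ i, (-(lam * a i)) ^ 2 = T := by
    rw [← e3]
    exact sum_congr rfl fun i _ => by ring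
  rw [e3] at e1
  rw [e4] at e2
  have key : ∀ f ∈ univ.filter (fun f : ι → Bool => T * s < (∑ i, sg (f i) * a i) ^ 2),
      Real.exp T ≤ Real.exp (∑ i, sg (f i) * (lam * a i)) +
        Real.exp (∑ i, sg (f i) * -(lam * a i)) := by
    intro f hf
    rw [mem_filter] at hf
    have h1 : ∑ i, sg (f i) * (lam * a i) = lam * ∑ i, sg (f i) * a i := by
      rw [mul_sum]
      exact sum_congr rfl fun i _ => by ring
    have h2 : ∑ i, sg (f i) * -(lam * a i) = -(lam * ∑ i, sg (f i) * a i) := by
      rw [mul_sum, ← sum_neg_distrib]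
      exact sum_congr rfl fun i _ => by ring
    rw [h1, h2]
    set X := ∑ i, sg (f i) * a i
    have h3 : T ^ 2 ≤ (lam * X) ^ 2 := by
      have : (lam * X) ^ 2 = lam ^ 2 * X ^ 2 := by ring
      rw [this]
      have h4 : lam ^ 2 * (T * s) ≤ lam ^ 2 * X ^ 2 :=
        mul_le_mul_of_nonneg_left hf.2.le (sq_nonneg _)
      nlinarith
    have h4 : T ≤ |lam * X| := by
      have := sq_le_sq.1 h3
      rwa [abs_of_nonneg hT] at this
    rcases abs_cases (lam * X) with h5 | h5
    · rw [h5.1] at h4
      have := Real.exp_le_exp.2 h4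
      have := Real.exp_pos (-(lam * X))
      linarith
    · rw [h5.1] at h4
      have := Real.exp_le_exp.2 h4
      have := Real.exp_pos (lam * X)
      linarith
  have h5 : ((univ.filter fun f : ι → Bool => T * s < (∑ i, sg (f i) * a i) ^ 2).card : ℝ) *
      Real.exp T ≤ 2 * (2 ^ Fintype.card ι * Real.exp (T / 2)) := by
    rw [← nsmul_eq_mul, ← sum_const]
    refine (sum_le_sum key).trans ?_
    refine (sum_le_sum_of_subset_of_nonneg (filter_subset _ _) fun f _ _ => by positivity).trans ?_
    rw [sum_add_distrib]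
    linarith
  have h6 : Real.exp T = Real.exp (T / 2) * Real.exp (T / 2) := by
    rw [← Real.exp_add]
    congr 1
    ring
  have h7 : Real.exp (-T / 2) * Real.exp (T / 2) = 1 := by
    rw [← Real.exp_add]
    have : -T / 2 + T / 2 = 0 := by ring
    rw [this, Real.exp_zero]
  have h8 := Real.exp_pos (T / 2)
  set E := Real.exp (T / 2)
  set D := Real.exp (-T / 2)
  set n := ((univ.filter fun f : ι → Bool => T * s < (∑ i, sg (f i) * a i) ^ 2).card : ℝ)
  rw [h6] at h5
  have h9 : n * E ≤ 2 * 2 ^ Fintype.card ι := by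
    have : (n * E) * E ≤ (2 * 2 ^ Fintype.card ι) * E := by nlinarith
    exact le_of_mul_le_mul_right this h8
  have h10 : 0 < D := Real.exp_pos _
  calc n = n * E * D := by rw [mul_assoc, mul_comm E D, h7, mul_one]
    _ ≤ 2 * 2 ^ Fintype.card ι * D := mul_le_mul_of_nonneg_right h9 h10.le
    _ = _ := by ring

variable {M : ℕ}

/-- the phases `f` are not noticed in the state `φ` -/
def Fine (T : ℝ) (f : List Bool → Bool) (k : ℕ) (l : List ℕ) (φ : Basis M → ℂ) : Prop :=
  ∀ z : Basis M, ‖∑ w ∈ blkS k (rd z l), ((sg (f (List.ofFn w)) : ℝ) : ℂ) * φ (wr z l w)‖ ^ 2 ≤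
    T * ∑ w ∈ blkS k (rd z l), ‖φ (wr z l w)‖ ^ 2

/-- a function on strings from a function on basis states -/
def ofB {m : ℕ} (f : Basis m → Bool) (s : List Bool) : Bool :=
  if h : s.length = m then f (fun i => s.get ⟨i.1, by omega⟩) else false

theorem ofB_ofFn {m : ℕ} (f : Basis m → Bool) (w : Basis m) : ofB f (List.ofFn w) = f w := by
  unfold ofB
  rw [dif_pos (by simp)]
  congr 1
  funext i
  simp

open scoped Classical in
theorem card_bad {T : ℝ} (hT : 0 ≤ T) (k : ℕ) (l : List ℕ) (φ : Basis M → ℂ) {m : ℕ}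
    (hl : l.length = m) :
    ((univ.filter fun f : Basis m → Bool => ¬ Fine T (ofB f) k l φ).card : ℝ) ≤
      2 ^ M * (4 * Real.exp (-T / 2) * 2 ^ Fintype.card (Basis m)) := by
  classical
  subst hl
  set a : Basis M → Basis l.length → ℝ := fun z w =>
    if w ∈ blkS k (rd z l) then (φ (wr z l w)).re else 0 with ha
  set b : Basis M → Basis l.length → ℝ := fun z w =>
    if w ∈ blkS k (rd z l) then (φ (wr z l w)).im else 0 with hb
  have hsub : (univ.filter fun f : Basis l.length → Bool => ¬ Fine T (ofB f) k l φ) ⊆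
      univ.biUnion fun z : Basis M =>
        (univ.filter fun f : Basis l.length → Bool =>
          T * ∑ w, a z w ^ 2 < (∑ w, sg (f w) * a z w) ^ 2) ∪
        (univ.filter fun f : Basis l.length → Bool =>
          T * ∑ w, b z w ^ 2 < (∑ w, sg (f w) * b z w) ^ 2) := by
    intro f hf
    rw [mem_filter] at hf
    obtain ⟨_, hf⟩ := hf
    unfold Fine at hf
    push Not at hf
    obtain ⟨z, hz⟩ := hf
    rw [mem_biUnion]
    refine ⟨z, mem_univ _, ?_⟩
    rw [mem_union, mem_filter, mem_filter]
    by_contra hcon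
    push Not at hcon
    have h1 := hcon.1 (mem_univ _)
    have h2 := hcon.2 (mem_univ _)
    have e1 : ∑ w ∈ blkS k (rd z l), ‖φ (wr z l w)‖ ^ 2 = ∑ w, a z w ^ 2 + ∑ w, b z w ^ 2 := by
      rw [← sum_add_distrib, ← sum_filter_add_sum_filter_not univ (fun w => w ∈ blkS k (rd z l))
        (fun w => a z w ^ 2 + b z w ^ 2)]
      rw [sum_eq_zero (s := univ.filter fun w => ¬ w ∈ blkS k (rd z l)), add_zero]
      · have e : (univ.filter fun w => w ∈ blkS k (rd z l)) = blkS k (rd z l) := by
          ext w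
          simp
        rw [e]
        refine sum_congr rfl fun w hw => ?_
        simp only [ha, hb, if_pos hw]
        rw [← Complex.normSq_eq_norm_sq, Complex.normSq_apply]
        ring
      · intro w hw
        rw [mem_filter] at hw
        simp only [ha, hb, if_neg hw.2]
        norm_num
    have e2 : ∑ w ∈ blkS k (rd z l), ((sg (ofB f (List.ofFn w)) : ℝ) : ℂ) * φ (wr z l w) =
        ⟨∑ w, sg (f w) * a z w, ∑ w, sg (f w) * b z w⟩ := by
      apply Complex.ext
      · simp only [Complex.re_sum, Complex.re_ofReal_mul]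
        rw [← sum_filter_add_sum_filter_not univ (fun w => w ∈ blkS k (rd z l))
          (fun w => sg (f w) * a z w)]
        rw [sum_eq_zero (s := univ.filter fun w => ¬ w ∈ blkS k (rd z l)), add_zero]
        · have e : (univ.filter fun w => w ∈ blkS k (rd z l)) = blkS k (rd z l) := by
            ext w
            simp
          rw [e]
          refine sum_congr rfl fun w hw => ?_
          rw [ofB_ofFn]
          simp only [ha, if_pos hw]
        · intro w hw
          rw [mem_filter] at hw
          simp only [ha, if_neg hw.2, mul_zero]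
      · simp only [Complex.im_sum, Complex.im_ofReal_mul]
        rw [← sum_filter_add_sum_filter_not univ (fun w => w ∈ blkS k (rd z l))
          (fun w => sg (f w) * b z w)]
        rw [sum_eq_zero (s := univ.filter fun w => ¬ w ∈ blkS k (rd z l)), add_zero]
        · have e : (univ.filter fun w => w ∈ blkS k (rd z l)) = blkS k (rd z l) := by
            ext w
            simp
          rw [e]
          refine sum_congr rfl fun w hw => ?_
          rw [ofB_ofFn]
          simp only [hb, if_pos hw]
        · intro w hw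
          rw [mem_filter] at hw
          simp only [hb, if_neg hw.2, mul_zero]
    rw [e1, e2, ← Complex.normSq_eq_norm_sq, Complex.normSq_apply] at hz
    nlinarith
  have h1 : ((univ.filter fun f : Basis l.length → Bool => ¬ Fine T (ofB f) k l φ).card : ℝ) ≤
      ∑ _z : Basis M, (2 * Real.exp (-T / 2) * 2 ^ Fintype.card (Basis l.length) +
        2 * Real.exp (-T / 2) * 2 ^ Fintype.card (Basis l.length)) := by
    refine (Nat.cast_le.2 ((card_le_card hsub).trans card_biUnion_le)).trans ?_
    push_cast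
    refine sum_le_sum fun z _ => ?_
    refine (Nat.cast_le.2 (card_union_le _ _)).trans ?_
    push_cast
    exact add_le_add (tail (a z) hT) (tail (b z) hT)
  refine h1.trans (le_of_eq ?_)
  rw [sum_const, card_univ, nsmul_eq_mul]
  have h2 : Fintype.card (Basis M) = 2 ^ M := by simp
  rw [h2]
  push_cast
  ring

/-- **Good phases exist.** -/
theorem exists_fine {J : Type} (S : Finset J) (k : ℕ) (M : J → ℕ) (l : J → List ℕ)
    (φ : (j : J) → Basis (M j) → ℂ) {m : ℕ} (hl : ∀ j ∈ S, (l j).length = m) {B : ℕ}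
    (hB : ∀ j ∈ S, M j ≤ B) {T : ℝ} (hT : 0 ≤ T)
    (hS : (S.card : ℝ) * (2 ^ B * (4 * Real.exp (-T / 2))) < 1) :
    ∃ f : List Bool → Bool, ∀ j ∈ S, Fine T f k (l j) (φ j) := by
  classical
  by_contra hcon
  push Not at hcon
  have h1 : (univ : Finset (Basis m → Bool)) ⊆
      S.biUnion fun j => univ.filter fun f : Basis m → Bool => ¬ Fine T (ofB f) k (l j) (φ j) := by
    intro f _
    obtain ⟨j, hj, hj'⟩ := hcon (ofB f)
    rw [mem_biUnion]
    exact ⟨j, hj, mem_filter.2 ⟨mem_univ _, hj'⟩⟩
  have h2 : ((univ : Finset (Basis m → Bool)).card : ℝ) ≤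
      ∑ _j ∈ S, (2 : ℝ) ^ B * (4 * Real.exp (-T / 2) * 2 ^ Fintype.card (Basis m)) := by
    refine (Nat.cast_le.2 ((card_le_card h1).trans card_biUnion_le)).trans ?_
    push_cast
    refine sum_le_sum fun j hj => ?_
    refine (card_bad hT k (l j) (φ j) (hl j hj)).trans ?_
    refine mul_le_mul_of_nonneg_right ?_ (by positivity)
    exact pow_le_pow_right₀ (by norm_num) (hB j hj)
  rw [sum_const, nsmul_eq_mul, card_univ, Fintype.card_fun] at h2
  push_cast at h2
  rw [Fintype.card_bool] at h2
  push_cast at h2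
  have h3 : (0 : ℝ) < 2 ^ Fintype.card (Basis m) := by positivity
  have h4 : (S.card : ℝ) * (2 ^ B * (4 * Real.exp (-T / 2) * 2 ^ Fintype.card (Basis m))) =
      ((S.card : ℝ) * (2 ^ B * (4 * Real.exp (-T / 2)))) * 2 ^ Fintype.card (Basis m) := by ring
  rw [h4] at h2
  nlinarith

/-- **Good phases have a small effect.** -/
theorem nrm_of_fine {m k : ℕ} {T : ℝ} (hT : 0 ≤ T) {f b : List Bool → Bool} {l : List ℕ}
    (hk : l.length / 2 + k ≤ l.length) {φ : Basis m → ℂ} (hφ : nrm φ = 1) (h : Fine T f k l φ)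
    {A : Oracle} {U : UOracle} {c : ℕ} (hU : U.mat l.length = refl k b f) :
    nrm ((Gate.uni c l).act A U φ - φ) ^ 2 ≤ 4 * T / 2 ^ k := by
  classical
  rw [nrm_sq]
  by_cases hgood : l.Nodup ∧ ∀ q ∈ l, q < m
  swap
  · rw [sum_eq_zero]
    · positivity
    · intro z _
      rw [Pi.sub_apply, act_refl hU, if_neg fun h => hgood ⟨h.1, h.2.1⟩]
      simp
  obtain ⟨hnd, hlt⟩ := hgood
  -- a bound for every basis state
  have key : ∀ z : Basis m, ‖((Gate.uni c l).act A U φ - φ) z‖ ^ 2 ≤ 4 * T / 4 ^ k *
      ∑ w, if Pd k (rd z l) ∧ xs (rd z l) = xs w ∧ Pd k w then ‖φ (wr z l w)‖ ^ 2 else 0 := by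
    intro z
    have h0 : 0 ≤ 4 * T / 4 ^ k *
        ∑ w, if Pd k (rd z l) ∧ xs (rd z l) = xs w ∧ Pd k w then ‖φ (wr z l w)‖ ^ 2 else 0 := by
      refine mul_nonneg (by positivity) (sum_nonneg fun w _ => ?_)
      split_ifs <;> positivity
    rw [Pi.sub_apply, act_refl hU]
    split_ifs with h1
    · by_cases hp : Pd k (rd z l)
      · by_cases hb : b (xs (rd z l)) = true
        · have e1 : ∑ w : Basis l.length, proj k b f (rd z l) w * φ (wr z l w) =
              ((amp k f (rd z l) / Real.sqrt 2 ^ k : ℝ) : ℂ) *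
              ∑ w ∈ blkS k (rd z l), ((sg (f (List.ofFn w)) : ℝ) : ℂ) * φ (wr z l w) := by
            rw [mul_sum]
            unfold blkS
            rw [sum_filter]
            refine sum_congr rfl fun w _ => ?_
            rw [proj_apply]
            by_cases h2 : xs (rd z l) = xs w
            · rw [if_pos ⟨hb, h2⟩]
              by_cases h3 : Pd k w
              · rw [if_pos ⟨h2, h3⟩]
                have e2 : amp k f w = sg (f (List.ofFn w)) / Real.sqrt 2 ^ k := by
                  unfold amp
                  rw [if_pos h3]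
                  rfl
                rw [e2]
                push_cast
                ring
              · rw [if_neg fun h => h3 h.2]
                have e2 : amp k f w = 0 := by
                  unfold amp
                  rw [if_neg h3]
                rw [e2]
                simp
            · rw [if_neg fun h => h2 h.2, if_neg fun h => h2 h.1, zero_mul]
          rw [e1, norm_mul, norm_mul, mul_pow, mul_pow]
          have e3 : ‖(-2 : ℂ)‖ ^ 2 = 4 := by
            rw [norm_neg]
            norm_num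
          have e4 : ‖((amp k f (rd z l) / Real.sqrt 2 ^ k : ℝ) : ℂ)‖ ^ 2 = 1 / 4 ^ k := by
            rw [Complex.norm_real, Real.norm_eq_abs, sq_abs, div_pow, amp_sq k f hp, ← pow_mul,
              mul_comm k 2, pow_mul, Real.sq_sqrt (by norm_num)]
            rw [show (4 : ℝ) = 2 * 2 by norm_num, mul_pow]
            field_simp
          rw [e3, e4]
          have e5 := h z
          have e6 : ∑ w ∈ blkS k (rd z l), ‖φ (wr z l w)‖ ^ 2 =
              ∑ w, if Pd k (rd z l) ∧ xs (rd z l) = xs w ∧ Pd k w then ‖φ (wr z l w)‖ ^ 2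
                else 0 := by
            unfold blkS
            rw [sum_filter]
            refine sum_congr rfl fun w _ => ?_
            simp only [hp, true_and]
          rw [e6] at e5
          have e7 : (0 : ℝ) < 1 / 4 ^ k := by positivity
          set X := ‖∑ w ∈ blkS k (rd z l), ((sg (f (List.ofFn w)) : ℝ) : ℂ) * φ (wr z l w)‖ ^ 2
          set Y := ∑ w, if Pd k (rd z l) ∧ xs (rd z l) = xs w ∧ Pd k w then ‖φ (wr z l w)‖ ^ 2
                else 0
          have e8 : 4 * T / 4 ^ k * Y = 4 * ((1 / 4 ^ k) * (T * Y)) := by ring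
          rw [e8]
          exact mul_le_mul_of_nonneg_left (mul_le_mul_of_nonneg_left e5 e7.le) (by norm_num)
        · rw [sum_eq_zero]
          · simpa using h0
          · intro w _
            rw [proj_apply, if_neg fun h => hb h.1, zero_mul]
      · rw [sum_eq_zero]
        · simpa using h0
        · intro w _
          rw [proj_apply]
          have e2 : amp k f (rd z l) = 0 := by
            unfold amp
            rw [if_neg hp]
          rw [e2]
          simp
    · simpa using h0
  refine (sum_le_sum fun z _ => key z).trans ?_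
  rw [← mul_sum]
  -- the sum over all basis states
  have hsum : ∑ z : Basis m, ∑ w : Basis l.length,
      (if Pd k (rd z l) ∧ xs (rd z l) = xs w ∧ Pd k w then ‖φ (wr z l w)‖ ^ 2 else 0) ≤ 2 ^ k := by
    have e1 := sum_xch hnd hlt (fun (z : Basis m) (w : Basis l.length) =>
      if Pd k w ∧ xs w = xs (rd z l) ∧ Pd k (rd z l) then ‖φ z‖ ^ 2 else 0)
    have e2 : ∑ z : Basis m, ∑ w : Basis l.length,
        (if Pd k (rd z l) ∧ xs (rd z l) = xs w ∧ Pd k w then ‖φ (wr z l w)‖ ^ 2 else 0) =
        ∑ z : Basis m, ∑ w : Basis l.length, (if Pd k (rd z l) ∧ xs (rd z l) =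
          xs (rd (wr z l w) l) ∧ Pd k (rd (wr z l w) l) then ‖φ (wr z l w)‖ ^ 2 else 0) := by
      refine sum_congr rfl fun z _ => sum_congr rfl fun w _ => ?_
      rw [rd_wr hnd hlt]
    rw [e2, e1]
    have e3 : ∀ z : Basis m, ∑ w : Basis l.length,
        (if Pd k w ∧ xs w = xs (rd z l) ∧ Pd k (rd z l) then ‖φ z‖ ^ 2 else 0) ≤
        2 ^ k * ‖φ z‖ ^ 2 := by
      intro z
      have e4 : ∑ w : Basis l.length,
          (if Pd k w ∧ xs w = xs (rd z l) ∧ Pd k (rd z l) then ‖φ z‖ ^ 2 else 0) ≤
          ∑ w ∈ blkS k (rd z l), ‖φ z‖ ^ 2 := by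
        unfold blkS
        rw [sum_filter]
        refine sum_le_sum fun w _ => ?_
        split_ifs with h1 h2 h3
        · exact le_rfl
        · exact absurd ⟨h1.2.1.symm, h1.1⟩ h2
        · positivity
        · exact le_rfl
      refine e4.trans ?_
      rw [sum_const, card_blkS hk, nsmul_eq_mul]
      push_cast
      exact le_rfl
    refine (sum_le_sum fun z _ => e3 z).trans ?_
    rw [← mul_sum, ← nrm_sq, hφ]
    norm_num
  have h4 : 4 * T / 4 ^ k * 2 ^ k = 4 * T / 2 ^ k := by
    rw [show (4 : ℝ) ^ k = 2 ^ k * 2 ^ k by rw [← mul_pow]; norm_num]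
    field_simp
  rw [← h4]
  exact mul_le_mul_of_nonneg_left hsum (by positivity)

end Pool.Agent.H10x.QW
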