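import Pool.Agent.H10x.QW.Uni

/-!
# The reflections at hidden phase states
-/

set_option autoImplicit false

namespace Pool.Agent.H10x.QW

open Pool.Agent.NPC Pool.Agent.H620R2.Gauge Finset
open Pool.Agent.H9x.Q (Basis bit ket)
open Pool.Agent.R562.QH (nrm nrm_sq nrm_nonneg nrm_add_le nrm_congr)

variable {m : ℕ}

/-- the first half of the qubits -/
def xs (u : Basis m) : List Bool := List.ofFn fun i : Fin (m / 2) => u ⟨i.1, by omega⟩

/-- the qubits from number `m / 2 + k` on are zero -/
def Pd (k : ℕ) (u : Basis m) : Prop := ∀ i : Fin m, m / 2 + k ≤ i.1 → u i = false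

theorem xs_eq {u u' : Basis m} : xs u = xs u' ↔ ∀ i : Fin m, i.1 < m / 2 → u i = u' i := by
  unfold xs
  rw [List.ofFn_inj, funext_iff]
  exact ⟨fun h i hi => h ⟨i.1, hi⟩, fun h i => h ⟨i.1, by omega⟩ i.2⟩

open scoped Classical in
/-- the strings with a given first half which are zero from number `m / 2 + k` on -/
noncomputable def blkS (k : ℕ) (u : Basis m) : Finset (Basis m) :=
  univ.filter fun u' => xs u = xs u' ∧ Pd k u'

theorem card_blkS {k : ℕ} (hk : m / 2 + k ≤ m) (u : Basis m) : (blkS k u).card = 2 ^ k := by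
  classical
  have h1 : (blkS k u).card = (univ : Finset (Basis k)).card := by
    refine card_bij' (fun u' _ => fun j : Fin k => u' ⟨m / 2 + j.1, by omega⟩)
      (fun y _ => fun i : Fin m => if i.1 < m / 2 then u i else
        if h : i.1 - m / 2 < k then y ⟨i.1 - m / 2, h⟩ else false) ?_ ?_ ?_ ?_
    · intro _ _
      exact mem_univ _
    · intro y _
      unfold blkS
      rw [mem_filter]
      refine ⟨mem_univ _, xs_eq.2 fun i hi => by simp [hi], fun i hi => ?_⟩
      simp only
      rw [if_neg (by omega), dif_neg (by omega)]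
    · intro u' hu'
      unfold blkS at hu'
      rw [mem_filter] at hu'
      obtain ⟨_, h2, h3⟩ := hu'
      rw [xs_eq] at h2
      funext i
      simp only
      split_ifs with h4 h5
      · exact h2 i h4
      · congr 1
        apply Fin.ext
        simp only
        omega
      · exact (h3 i (by omega)).symm
    · intro y _
      funext j
      simp only
      rw [if_neg (by omega), dif_pos (by omega)]
      congr 1
      apply Fin.ext
      simp
  rw [h1, card_univ]
  simp

open scoped Classical in
/-- the amplitudes of the phase states -/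
noncomputable def amp (k : ℕ) (f : List Bool → Bool) (u : Basis m) : ℝ :=
  if Pd k u then (if f (List.ofFn u) then -1 else 1) / Real.sqrt 2 ^ k else 0

theorem amp_sq (k : ℕ) (f : List Bool → Bool) {u : Basis m} (hu : Pd k u) :
    amp k f u ^ 2 = 1 / 2 ^ k := by
  unfold amp
  rw [if_pos hu, div_pow, ← pow_mul, mul_comm k 2, pow_mul, Real.sq_sqrt (by norm_num)]
  split_ifs <;> norm_num

theorem sum_amp {k : ℕ} (hk : m / 2 + k ≤ m) (f : List Bool → Bool) (u : Basis m) :
    ∑ u' ∈ univ.filter (fun u' : Basis m => xs u = xs u'), amp k f u' ^ 2 = 1 := by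
  classical
  have h1 : ∑ u' ∈ univ.filter (fun u' : Basis m => xs u = xs u'), amp k f u' ^ 2 =
      ∑ u' ∈ blkS k u, amp k f u' ^ 2 := by
    symm
    refine sum_subset (fun u' hu' => ?_) fun u' h2 h3 => ?_
    · unfold blkS at hu'
      rw [mem_filter] at hu' ⊢
      exact ⟨hu'.1, hu'.2.1⟩
    · have h4 : ¬ Pd k u' := fun h => h3 (by
        unfold blkS
        rw [mem_filter] at h2 ⊢
        exact ⟨h2.1, h2.2, h⟩)
      unfold amp
      rw [if_neg h4]
      norm_num
  rw [h1]
  have h2 : ∀ u' ∈ blkS k u, amp k f u' ^ 2 = 1 / 2 ^ k := fun u' hu' => by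
    unfold blkS at hu'
    rw [mem_filter] at hu'
    exact amp_sq k f hu'.2.2
  rw [sum_congr rfl h2, sum_const, card_blkS hk, nsmul_eq_mul]
  push_cast
  field_simp

/-- the projection on the hidden states -/
noncomputable def proj (k : ℕ) (b f : List Bool → Bool) : Matrix (Basis m) (Basis m) ℂ :=
  Matrix.of fun u u' => if b (xs u) = true ∧ xs u = xs u' then
    ((amp k f u * amp k f u' : ℝ) : ℂ) else 0

theorem proj_apply (k : ℕ) (b f : List Bool → Bool) (u u' : Basis m) :
    proj k b f u u' = if b (xs u) = true ∧ xs u = xs u' then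
      ((amp k f u * amp k f u' : ℝ) : ℂ) else 0 := rfl

theorem proj_mul {k : ℕ} (hk : m / 2 + k ≤ m) (b f : List Bool → Bool) :
    (proj k b f * proj k b f : Matrix (Basis m) (Basis m) ℂ) = proj k b f := by
  classical
  ext u u''
  rw [Matrix.mul_apply]
  simp only [proj_apply]
  by_cases h : b (xs u) = true ∧ xs u = xs u''
  · obtain ⟨h1, h2⟩ := h
    rw [if_pos ⟨h1, h2⟩]
    have h3 : ∀ u' : Basis m, ((if b (xs u) = true ∧ xs u = xs u' then
        ((amp k f u * amp k f u' : ℝ) : ℂ) else 0) *
        if b (xs u') = true ∧ xs u' = xs u'' then ((amp k f u' * amp k f u'' : ℝ) : ℂ) else 0) =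
        if xs u = xs u' then ((amp k f u * amp k f u'' * amp k f u' ^ 2 : ℝ) : ℂ) else 0 := by
      intro u'
      by_cases h4 : xs u = xs u'
      · rw [if_pos ⟨h1, h4⟩, if_pos ⟨h4 ▸ h1, h4 ▸ h2⟩, if_pos h4]
        push_cast
        ring
      · rw [if_neg h4, if_neg fun h => h4 h.2, zero_mul]
    rw [sum_congr rfl fun u' _ => h3 u', ← sum_filter, ← Complex.ofReal_sum, ← mul_sum,
      sum_amp hk, mul_one]
  · rw [if_neg h]
    refine sum_eq_zero fun u' _ => ?_
    by_cases h4 : b (xs u) = true ∧ xs u = xs u'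
    · rw [if_neg (c := b (xs u') = true ∧ xs u' = xs u''), mul_zero]
      rintro ⟨h5, h6⟩
      exact h ⟨h4.1, h4.2.trans h6⟩
    · rw [if_neg h4, zero_mul]

theorem proj_star (k : ℕ) (b f : List Bool → Bool) :
    star (proj k b f : Matrix (Basis m) (Basis m) ℂ) = proj k b f := by
  ext u u'
  rw [Matrix.star_apply, proj_apply, proj_apply]
  by_cases h : xs u = xs u'
  · by_cases hb : b (xs u') = true
    · have hb' : b (xs u) = true := by rw [h]; exact hb
      rw [if_pos ⟨hb, h.symm⟩, if_pos ⟨hb', h⟩, RCLike.star_def, Complex.conj_ofReal,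
        mul_comm (amp k f u')]
    · have hb' : ¬ b (xs u) = true := by rw [h]; exact hb
      rw [if_neg fun h => hb h.1, if_neg fun h => hb' h.1, star_zero]
  · rw [if_neg fun h' => h h'.2.symm, if_neg fun h' => h h'.2, star_zero]

/-- the reflection at the hidden states -/
noncomputable def refl (k : ℕ) (b f : List Bool → Bool) : Matrix (Basis m) (Basis m) ℂ :=
  1 - (proj k b f + proj k b f)

theorem refl_mul {k : ℕ} (hk : m / 2 + k ≤ m) (b f : List Bool → Bool) :
    (refl k b f * refl k b f : Matrix (Basis m) (Basis m) ℂ) = 1 := by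
  unfold refl
  have h := proj_mul hk b f
  set P : Matrix (Basis m) (Basis m) ℂ := proj k b f with hP
  have h2 : (1 - (P + P)) * (1 - (P + P)) = 1 - (P + P) - (P + P) + (P * P + P * P + (P * P + P * P)) := by
    noncomm_ring
  rw [h2, h]
  abel

theorem refl_unitary {k : ℕ} (hk : m / 2 + k ≤ m) (b f : List Bool → Bool) :
    (refl k b f : Matrix (Basis m) (Basis m) ℂ) ∈ Matrix.unitaryGroup (Basis m) ℂ := by
  rw [Matrix.mem_unitaryGroup_iff]
  have h : star (refl k b f : Matrix (Basis m) (Basis m) ℂ) = refl k b f := by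
    unfold refl
    rw [star_sub, star_add, proj_star, star_one]
  rw [h, refl_mul hk]

/-- the data: for every number of qubits the set of the marked indices and the phases -/
abbrev Dat : Type := ℕ → (List Bool → Bool) × (List Bool → Bool)

open scoped Classical in
/-- the unitary oracle with the data `κ`, hidden states of `k m` qubits, and with the operators on
`m` qubits replaced by the identity unless `K m` -/
noncomputable def uo (k : ℕ → ℕ) (hk : ∀ m, m / 2 + k m ≤ m) (κ : Dat) (K : ℕ → Prop) :
    UOracle where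
  mat m := if K m then refl (k m) (κ m).1 (κ m).2 else 1
  unitary m := by
    split_ifs
    · exact refl_unitary (hk m) _ _
    · exact one_mem _
  invol m := by
    split_ifs
    · exact refl_mul (hk m) _ _
    · exact one_mul 1

theorem uo_pos {k : ℕ → ℕ} {hk : ∀ m, m / 2 + k m ≤ m} {κ : Dat} {K : ℕ → Prop} {m : ℕ}
    (h : K m) : (uo k hk κ K).mat m = refl (k m) (κ m).1 (κ m).2 := if_pos h

theorem uo_neg {k : ℕ → ℕ} {hk : ∀ m, m / 2 + k m ≤ m} {κ : Dat} {K : ℕ → Prop} {m : ℕ}
    (h : ¬ K m) : (uo k hk κ K).mat m = 1 := if_neg h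

/-- the gate of the identity acts as the identity -/
theorem act_one {A : Oracle} {U : UOracle} {c : ℕ} {l : List ℕ} (hU : U.mat l.length = 1)
    (ψ : Basis m → ℂ) : (Gate.uni c l).act A U ψ = ψ := by
  funext z
  simp only [Gate.act]
  split_ifs with h
  · rw [hU, Finset.sum_eq_single (rd z l)]
    · rw [Matrix.one_apply_eq, one_mul, wr_rd]
    · intro w _ hw
      rw [Matrix.one_apply_ne (Ne.symm hw), zero_mul]
    · intro h
      exact absurd (mem_univ _) h
  · rfl

/-- the gate of a reflection -/
theorem act_refl {A : Oracle} {U : UOracle} {c : ℕ} {l : List ℕ} {k : ℕ} {b f : List Bool → Bool}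
    (hU : U.mat l.length = refl k b f) (ψ : Basis m → ℂ) (z : Basis m) :
    (Gate.uni c l).act A U ψ z - ψ z =
      if l.Nodup ∧ (∀ q ∈ l, q < m) ∧ c ∉ l ∧ bit z c = true then
        -2 * ∑ w : Basis l.length, proj k b f (rd z l) w * ψ (wr z l w)
      else 0 := by
  simp only [Gate.act]
  split_ifs with h
  · rw [hU]
    have h1 : ∀ w : Basis l.length, (refl k b f : Matrix _ _ ℂ) (rd z l) w * ψ (wr z l w) =
        (1 : Matrix _ _ ℂ) (rd z l) w * ψ (wr z l w) -
        2 * (proj k b f (rd z l) w * ψ (wr z l w)) := by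
      intro w
      unfold refl
      rw [Matrix.sub_apply, Matrix.add_apply]
      ring
    rw [sum_congr rfl fun w _ => h1 w, sum_sub_distrib, ← mul_sum]
    have h2 : ∑ w : Basis l.length, (1 : Matrix _ _ ℂ) (rd z l) w * ψ (wr z l w) = ψ z := by
      rw [Finset.sum_eq_single (rd z l)]
      · rw [Matrix.one_apply_eq, one_mul, wr_rd]
      · intro w _ hw
        rw [Matrix.one_apply_ne (Ne.symm hw), zero_mul]
      · intro h
        exact absurd (mem_univ _) h
    rw [h2]
    ring
  · exact sub_self _

/-- **Fewer marked indices, smaller effect.** -/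
theorem nrm_refl_le {A A' : Oracle} {U U' : UOracle} {c : ℕ} {l : List ℕ} {k : ℕ}
    {b f : List Bool → Bool} (hU : U.mat l.length = refl k b f)
    (hU' : U'.mat l.length = refl k (fun _ => true) f) (ψ : Basis m → ℂ) :
    nrm ((Gate.uni c l).act A U ψ - ψ) ≤ nrm ((Gate.uni c l).act A' U' ψ - ψ) := by
  refine le_of_sq_le_sq ?_ (nrm_nonneg _)
  rw [nrm_sq, nrm_sq]
  refine sum_le_sum fun z _ => ?_
  rw [Pi.sub_apply, Pi.sub_apply, act_refl hU, act_refl hU']
  split_ifs with h
  · by_cases hb : b (xs (rd z l)) = true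
    · refine le_of_eq ?_
      congr 3
      refine sum_congr rfl fun w _ => ?_
      rw [proj_apply, proj_apply]
      simp only [hb, true_and]
    · rw [Finset.sum_eq_zero]
      · simp
      · intro w _
        rw [proj_apply, if_neg fun h => hb h.1, zero_mul]
  · exact le_rfl

end Pool.Agent.H10x.QW
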