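import Pool.Agent.H10x.QW.Defs
import Pool.Agent.H9x.Q.Size

/-!
# The gates are isometries; the hybrid argument
-/

set_option autoImplicit false

namespace Pool.Agent.H10x.QW

open Pool.Agent.NPC Pool.Agent.H620R2.Gauge Finset
open Pool.Agent.H9x.Q (Basis bit ket)
open Pool.Agent.R562.QH (nrm nrm_sq nrm_nonneg nrm_add_le nrm_congr)

variable {m : ℕ}

theorem rd_wr {l : List ℕ} (hl : l.Nodup) (hm : ∀ q ∈ l, q < m) (z : Basis m)
    (w : Basis l.length) : rd (wr z l w) l = w := by
  funext i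
  have h1 : l.get i ∈ l := List.get_mem l i
  unfold rd bit
  rw [dif_pos (hm _ h1)]
  unfold wr
  rw [dif_pos h1]
  congr 1
  apply Fin.ext
  simp only [List.get_eq_getElem]
  exact hl.idxOf_getElem i.1 i.2

theorem wr_wr (z : Basis m) (l : List ℕ) (w w' : Basis l.length) :
    wr (wr z l w) l w' = wr z l w' := by
  funext i
  unfold wr
  split_ifs <;> rfl

theorem wr_rd (z : Basis m) (l : List ℕ) : wr z l (rd z l) = z := by
  funext i
  unfold wr
  split_ifs with h
  · unfold rd bit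
    simp only [List.get_eq_getElem, List.getElem_idxOf]
    rw [dif_pos i.2]
  · rfl

theorem bit_wr {l : List ℕ} {c : ℕ} (hc : c ∉ l) (z : Basis m) (w : Basis l.length) :
    bit (wr z l w) c = bit z c := by
  unfold bit wr
  split_ifs with h
  · rfl
  · rfl

/-- exchange of the contents of the list with a register -/
def xch (l : List ℕ) (p : Basis m × Basis l.length) : Basis m × Basis l.length :=
  (wr p.1 l p.2, rd p.1 l)

theorem xch_invol {l : List ℕ} (hl : l.Nodup) (hm : ∀ q ∈ l, q < m) :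
    Function.Involutive (xch (m := m) l) := by
  rintro ⟨z, w⟩
  unfold xch
  simp only [rd_wr hl hm, wr_wr, wr_rd]

theorem sum_xch {M : Type} [AddCommMonoid M] {l : List ℕ} (hl : l.Nodup) (hm : ∀ q ∈ l, q < m)
    (G : Basis m → Basis l.length → M) :
    ∑ z, ∑ w, G (wr z l w) (rd z l) = ∑ z, ∑ w, G z w := by
  rw [← Fintype.sum_prod_type', ← Fintype.sum_prod_type']
  exact Equiv.sum_comp (xch_invol hl hm).toPerm (fun p => G p.1 p.2)

theorem sum_wr {l : List ℕ} (hl : l.Nodup) (hm : ∀ q ∈ l, q < m) (H : Basis m → ℝ) :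
    ∑ z, ∑ w : Basis l.length, H (wr z l w) = (2 ^ l.length : ℝ) * ∑ z, H z := by
  rw [sum_xch hl hm (fun z _ => H z), mul_sum]
  refine sum_congr rfl fun z _ => ?_
  rw [sum_const, card_univ, nsmul_eq_mul]
  simp

/-- a unitary matrix preserves the norm -/
theorem unitary_norm {W : Type} [Fintype W] [DecidableEq W] {U : Matrix W W ℂ}
    (hU : U ∈ Matrix.unitaryGroup W ℂ) (v : W → ℂ) :
    ∑ w, ‖∑ w', U w w' * v w'‖ ^ 2 = ∑ w, ‖v w‖ ^ 2 := by
  have key : ∀ u : W → ℂ, ((∑ w, ‖u w‖ ^ 2 : ℝ) : ℂ) = star u ⬝ᵥ u := by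
    intro u
    unfold dotProduct
    push_cast
    refine sum_congr rfl fun w _ => ?_
    rw [Pi.star_apply, RCLike.star_def, Complex.conj_mul']
  have h2 : (fun w => ∑ w', U w w' * v w') = U.mulVec v := rfl
  have h3 : ((∑ w, ‖∑ w', U w w' * v w'‖ ^ 2 : ℝ) : ℂ) = ((∑ w, ‖v w‖ ^ 2 : ℝ) : ℂ) := by
    rw [key (fun w => ∑ w', U w w' * v w'), key v, h2, Matrix.star_mulVec,
      Matrix.dotProduct_mulVec, Matrix.vecMul_vecMul]
    have h4 : U.conjTranspose * U = 1 := Matrix.mem_unitaryGroup_iff'.1 hU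
    rw [h4, Matrix.vecMul_one]
  exact_mod_cast h3

/-- **The gates are isometries.** -/
theorem act_norm (A : Oracle) (U : UOracle) (g : Gate) (ψ : Basis m → ℂ) :
    ∑ z, ‖g.act A U ψ z‖ ^ 2 = ∑ z, ‖ψ z‖ ^ 2 := by
  cases g with
  | std g => exact Pool.Agent.H9x.Q.act_norm A g ψ
  | uni c l =>
    by_cases h : l.Nodup ∧ (∀ q ∈ l, q < m) ∧ c ∉ l
    · obtain ⟨h1, h2, h3⟩ := h
      have key : (2 ^ l.length : ℝ) * ∑ z, ‖(Gate.uni c l).act A U ψ z‖ ^ 2 =
          (2 ^ l.length : ℝ) * ∑ z, ‖ψ z‖ ^ 2 := by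
        rw [← sum_wr h1 h2 (fun z => ‖(Gate.uni c l).act A U ψ z‖ ^ 2),
          ← sum_wr h1 h2 (fun z => ‖ψ z‖ ^ 2)]
        refine sum_congr rfl fun z _ => ?_
        by_cases hz : bit z c = true
        · rw [← unitary_norm (U.unitary l.length) (fun w => ψ (wr z l w))]
          refine sum_congr rfl fun w _ => ?_
          simp only [Gate.act]
          rw [if_pos ⟨h1, h2, h3, by rw [bit_wr h3, hz]⟩, rd_wr h1 h2]
          simp only [wr_wr]
        · refine sum_congr rfl fun w _ => ?_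
          simp only [Gate.act]
          rw [if_neg]
          rintro ⟨_, _, _, h⟩
          rw [bit_wr h3] at h
          exact hz h
      exact mul_left_cancel₀ (by positivity) key
    · refine sum_congr rfl fun z _ => ?_
      simp only [Gate.act]
      rw [if_neg]
      rintro ⟨h1, h2, h3, _⟩
      exact h ⟨h1, h2, h3⟩

theorem act_sub (A : Oracle) (U : UOracle) (g : Gate) (ψ φ : Basis m → ℂ) :
    g.act A U (ψ - φ) = g.act A U ψ - g.act A U φ := by
  cases g with
  | std g => exact Pool.Agent.H9x.Q.act_sub A g ψ φ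
  | uni c l =>
    funext z
    simp only [Gate.act, Pi.sub_apply]
    split_ifs
    · rw [← sum_sub_distrib]
      exact sum_congr rfl fun w _ => by ring
    · rfl

theorem nrm_act (A : Oracle) (U : UOracle) (g : Gate) (ψ : Basis m → ℂ) :
    nrm (g.act A U ψ) = nrm ψ := nrm_congr (act_norm A U g ψ)

theorem run_sub (A : Oracle) (U : UOracle) (C : List Gate) : ∀ ψ φ : Basis m → ℂ,
    run A U C (ψ - φ) = run A U C ψ - run A U C φ := by
  induction C with
  | nil => intro ψ φ; rfl
  | cons g C ih => intro ψ φ; simp only [run]; rw [act_sub, ih]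

theorem nrm_run (A : Oracle) (U : UOracle) (C : List Gate) : ∀ ψ : Basis m → ℂ,
    nrm (run A U C ψ) = nrm ψ := by
  induction C with
  | nil => intro ψ; rfl
  | cons g C ih => intro ψ; simp only [run]; rw [ih, nrm_act]

/-- **The hybrid argument.** If every gate acts nearly in the same way with `U` and with `U'` on the
states of the run with `U`, then the final states are near each other. -/
theorem hybrid (A : Oracle) (U U' : UOracle) {ε : ℝ} : ∀ (C : List Gate) (ψ : Basis m → ℂ),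
    (∀ (C₁ : List Gate) (g : Gate) (C₂ : List Gate), C = C₁ ++ g :: C₂ →
      nrm (g.act A U' (run A U C₁ ψ) - g.act A U (run A U C₁ ψ)) ≤ ε) →
    nrm (run A U' C ψ - run A U C ψ) ≤ C.length * ε := by
  intro C
  induction C with
  | nil =>
    intro ψ _
    have : run A U' [] ψ - run A U [] ψ = 0 := by simp [run]
    rw [this]
    have h0 : nrm (0 : Basis m → ℂ) = 0 := by
      have := nrm_sq (0 : Basis m → ℂ)
      simp at this
      exact this
    rw [h0]
    simp
  | cons g C ih =>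
    intro ψ h
    have e1 : run A U' (g :: C) ψ - run A U (g :: C) ψ =
        (run A U' C (g.act A U' ψ - g.act A U ψ)) +
        (run A U' C (g.act A U ψ) - run A U C (g.act A U ψ)) := by
      simp only [run]
      rw [run_sub]
      abel
    have h1 := h [] g C rfl
    have h2 := ih (g.act A U ψ) fun C₁ g' C₂ hC => by
      have := h (g :: C₁) g' C₂ (by rw [hC]; rfl)
      exact this
    rw [e1]
    refine (nrm_add_le _ _).trans ?_
    rw [nrm_run, List.length_cons]
    push_cast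
    simp only [run] at h1
    linarith

/-- acceptance probabilities of two states of norm one -/
theorem prob_diff (P : Basis m → Bool) {u v : Basis m → ℂ} (hu1 : nrm u = 1) (hv1 : nrm v = 1) :
    |(∑ z, if P z then ‖u z‖ ^ 2 else 0) - (∑ z, if P z then ‖v z‖ ^ 2 else 0)| ≤
      2 * nrm (u - v) := by
  have h1 : |(∑ z, if P z then ‖u z‖ ^ 2 else 0) - (∑ z, if P z then ‖v z‖ ^ 2 else 0)| ≤
      ∑ z, ‖u z - v z‖ * (‖u z‖ + ‖v z‖) := by
    rw [← sum_sub_distrib]
    refine (abs_sum_le_sum_abs _ _).trans (sum_le_sum fun z _ => ?_)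
    have h2 : |‖u z‖ ^ 2 - ‖v z‖ ^ 2| ≤ ‖u z - v z‖ * (‖u z‖ + ‖v z‖) := by
      rw [sq_sub_sq, abs_mul, mul_comm]
      rw [abs_of_nonneg (show 0 ≤ ‖u z‖ + ‖v z‖ by positivity)]
      exact mul_le_mul_of_nonneg_right (abs_norm_sub_norm_le _ _) (by positivity)
    split_ifs
    · exact h2
    · simp
      positivity
  have h2 : ∀ w : Basis m → ℂ, nrm w = 1 → ∑ z, ‖u z - v z‖ * ‖w z‖ ≤ nrm (u - v) := by
    intro w hw
    have h3 := Finset.sum_mul_sq_le_sq_mul_sq univ (fun z => ‖u z - v z‖) (fun z => ‖w z‖)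
    rw [← nrm_sq w, hw] at h3
    have h4 : ∑ z, ‖u z - v z‖ ^ 2 = nrm (u - v) ^ 2 := by rw [nrm_sq]; rfl
    rw [h4] at h3
    have h5 : 0 ≤ ∑ z, ‖u z - v z‖ * ‖w z‖ := sum_nonneg fun z _ => by positivity
    have h6 := nrm_nonneg (u - v)
    nlinarith
  have h3 := h2 u hu1
  have h4 := h2 v hv1
  have h5 : ∑ z, ‖u z - v z‖ * (‖u z‖ + ‖v z‖) =
      ∑ z, ‖u z - v z‖ * ‖u z‖ + ∑ z, ‖u z - v z‖ * ‖v z‖ := by
    rw [← sum_add_distrib]
    exact sum_congr rfl fun z _ => by ring
  linarith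

/-- **The gates depend on the classical oracle up to the length of the questions only.** -/
theorem act_congr {B : ℕ} {A A' : Oracle} {U U' : UOracle}
    (h : ∀ y : List Bool, y.length ≤ B → A y = A' y) (hU : ∀ k ≤ B, U.mat k = U'.mat k)
    (g : Gate) (hg : (∀ l r, g = .std (.query l r) → l.length ≤ B) ∧
      (∀ c l, g = .uni c l → l.length ≤ B)) (ψ : Basis m → ℂ) :
    g.act A U ψ = g.act A' U' ψ := by
  cases g with
  | std g =>
    exact Pool.Agent.H9x.Q.act_congr h g (fun l r hl => hg.1 l r (by rw [hl])) ψ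
  | uni c l =>
    funext z
    simp only [Gate.act]
    rw [hU _ (hg.2 c l rfl)]

/-- the lists in the circuit are not longer than `B` -/
def Short (B : ℕ) (C : List Gate) : Prop :=
  (∀ l r, Gate.std (.query l r) ∈ C → l.length ≤ B) ∧ (∀ c l, Gate.uni c l ∈ C → l.length ≤ B)

theorem run_congr {B : ℕ} {A A' : Oracle} {U U' : UOracle}
    (h : ∀ y : List Bool, y.length ≤ B → A y = A' y) (hU : ∀ k ≤ B, U.mat k = U'.mat k)
    (C : List Gate) (hC : Short B C) : ∀ ψ : Basis m → ℂ, run A U C ψ = run A' U' C ψ := by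
  induction C with
  | nil => intro ψ; rfl
  | cons g C ih =>
    intro ψ
    simp only [run]
    rw [act_congr h hU g ⟨fun l r hl => hC.1 l r (by rw [hl]; simp),
      fun c l hl => hC.2 c l (by rw [hl]; simp)⟩ ψ]
    exact ih ⟨fun l r hl => hC.1 l r (List.mem_cons_of_mem _ hl),
      fun c l hl => hC.2 c l (List.mem_cons_of_mem _ hl)⟩ _

end Pool.Agent.H10x.QW
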