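import Pool.Agent.H10x.QW.Approx

/-!
# Upper bounds relative to the pair of oracles
-/

set_option autoImplicit false

namespace Pool.Agent.H10x.QW

open Pool.Agent.NPC Pool.Agent.H622R2 Pool.Agent.H620R2.Gauge Pool.Agent.H622R2.Exp
  Pool.Agent.TH678.ETH Pool.Agent.TH678.SETH Pool.Agent.TH678.RS Filter Finset
open Pool.Agent.H9x.Q (Basis bit ket ket_norm)
open Pool.Agent.H9x.V1 (poly_cS)

variable {P : Par}

/-- **Polynomial space is in `P`.** -/
theorem pspace_in_p (κ : Dat) {L : Set (List Bool)} (hL : IsPSPACE (P.A κ) L) :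
    IsP (P.A κ) L := by
  obtain ⟨M, p, hM⟩ := hL
  obtain ⟨e, he⟩ := P.surj_g (M, p)
  have h1 : Poly (fun x : List Bool => true :: true :: cS e ((P.S e).eval x.length) x) :=
    Poly.cons (NPC.Poly.const true) (Poly.cons (NPC.Poly.const true)
      (poly_cS e ((UPoly.length Poly.id).eval (P.S e)) Poly.id))
  refine ⟨_, TH678.WP.isFP_ask' _ h1, fun x => ?_⟩
  simp only [List.cons.injEq, and_true]
  have h2 := A_on P κ (Ix.ps e x)
  change P.A κ (true :: true :: cS e ((P.S e).eval x.length) x) = true ↔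
    CC.Acc (P.g e).1 (CC.cut ((P.S e).eval x.length) (P.A κ)) x at h2
  rw [h2]
  have hloc := P.loc e
  rw [he] at hloc ⊢
  obtain ⟨hM1, s, z, hs, hz, hLz⟩ := hM x
  have hcong : ∀ s, M.Reach (CC.cut ((P.S e).eval x.length) (P.A κ)) x s ↔
      M.Reach (P.A κ) x s := by
    refine CC.reach_congr (fun s => s.length ≤ p.eval x.length) hM1 ?_
    intro s q h1 h2
    have h3 := hloc x s h1
    rw [h2, List.length_cons] at h3
    unfold CC.cut
    rw [if_pos (by omega)]
  constructor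
  · intro hx
    refine ⟨s, (hcong s).2 hs, ?_⟩
    rw [hz, hLz.1 hx]
  · rintro ⟨t, ht, ht2⟩
    have hst := CC.reach_unique hs ((hcong t).1 ht) ⟨_, hz⟩ ⟨_, ht2⟩
    rw [hst, ht2] at hz
    simp only [List.cons.injEq, true_and] at hz
    exact hLz.2 hz.symm

theorem Alt.mono {p : ℕ} {Φ Ψ : List Bool → Prop} (h : ∀ w, Φ w → Ψ w) :
    ∀ (k : ℕ) (b : Bool) (w : List Bool), Alt p Φ k b w → Alt p Ψ k b w
  | 0, _, w, h1 => h w h1
  | k + 1, true, w, ⟨v, h1, h2⟩ => ⟨v, h1, Alt.mono h k false _ h2⟩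
  | k + 1, false, w, h1 => fun v hv => Alt.mono h k true _ (h1 v hv)

theorem Alt.not {p : ℕ} {Φ : List Bool → Prop} :
    ∀ (k : ℕ) (b : Bool) (w : List Bool), Alt p (fun w => ¬ Φ w) k (!b) w → ¬ Alt p Φ k b w
  | 0, _, _, h1 => h1
  | k + 1, true, w, h1 => by
    rintro ⟨v, h2, h3⟩
    exact Alt.not k false _ (h1 v h2) h3
  | k + 1, false, w, ⟨v, h1, h2⟩ => fun h3 => Alt.not k true _ h2 (h3 v h1)

/-- the question to the oracle for the verifier number `e` with classical witnesses -/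
def qq (P : Par) (e : ℕ) (y : List Bool) : List Bool :=
  true :: false :: cS e ((P.S e).eval y.length) y

theorem cw_yes {κ : Dat} (hgood : ∀ m, GoodAt P κ m (κ m).2) (e : ℕ) (x : List Bool)
    (h : Alt ((P.H e).1.eval x.length) (fun w => 2 / 3 ≤ (P.G e).accC (P.A κ) (P.V κ) x w)
      (P.H e).2 true []) : P.A κ (qq P e x) = true := by
  have h2 := A_on P κ (Ix.cw e x)
  refine h2.2 (Alt.mono (fun w hw => ?_) _ _ _ h)
  have h3 := abs_le.1 (approx hgood e x fun i => w.getD i false)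
  unfold Verifier.accC at hw ⊢
  linarith [h3.2]

theorem cw_no {κ : Dat} (hgood : ∀ m, GoodAt P κ m (κ m).2) (e : ℕ) (x : List Bool)
    (h : Alt ((P.H e).1.eval x.length) (fun w => (P.G e).accC (P.A κ) (P.V κ) x w ≤ 1 / 3)
      (P.H e).2 false []) : ¬ P.A κ (qq P e x) = true := by
  intro h1
  have h2 := (A_on P κ (Ix.cw e x)).1 h1
  refine Alt.not (p := (P.H e).1.eval x.length) (Φ := fun w => 1 / 2 ≤ (P.G e).accC (P.A κ)
    (P.U κ ((P.S e).eval x.length)) x w) (P.H e).2 true [] (Alt.mono (fun w hw => ?_) _ _ _ h) h2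
  have h3 := abs_le.1 (approx hgood e x fun i => w.getD i false)
  unfold Verifier.accC at hw ⊢
  rw [not_le]
  linarith [h3.1]

/-- **`QCPH` is in `P`.** -/
theorem qcph_in_p {κ : Dat} (hgood : ∀ m, GoodAt P κ m (κ m).2) {Y N : Set (List Bool)}
    (h : IsQCPH (P.A κ) (P.V κ) Y N) : ∃ L, IsP (P.A κ) L ∧ Y ⊆ L ∧ Disjoint N L := by
  obtain ⟨F, p, k, hF⟩ := h
  obtain ⟨e, he⟩ := P.surj_G (F, (p, k))
  simp only [Prod.mk.injEq] at he
  obtain ⟨rfl, he2⟩ := he
  have hp : (P.H e).1 = p := by rw [he2]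
  have hk : (P.H e).2 = k := by rw [he2]
  subst hp hk
  have h1 : Poly (fun x : List Bool => qq P e x) :=
    Poly.cons (NPC.Poly.const true) (Poly.cons (NPC.Poly.const false)
      (poly_cS e ((UPoly.length Poly.id).eval (P.S e)) Poly.id))
  refine ⟨{x | P.A κ (qq P e x) = true},
    ⟨_, TH678.WP.isFP_ask' _ h1, fun x => ?_⟩, fun x hx => cw_yes hgood e x ((hF x).1 hx), ?_⟩
  · simp only [List.cons.injEq, and_true]
    rfl
  · rw [Set.disjoint_left]
    intro x hx
    exact cw_no hgood e x ((hF x).2 hx)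

/-- **`QMA` is in nearly polynomial time.** -/
theorem qma_in_time {α : ℕ → ℕ} (hα : Monotone α) (hb : P.b = bt α) (κ : Dat)
    {Y N : Set (List Bool)} (h : IsQMA (P.A κ) (P.V κ) Y N) :
    ∃ L, IsTime α (P.A κ) L ∧ Y ⊆ L ∧ Disjoint N L := by
  obtain ⟨F, hF⟩ := h
  obtain ⟨e, he⟩ := P.surj_G (F, (0, 0))
  simp only [Prod.mk.injEq] at he
  obtain ⟨rfl, _⟩ := he
  obtain ⟨C, hC⟩ := Pool.Agent.Y626.WX.time_bound hα (P.S e)
  have hx : Poly (fun y => (unpair y).2) := Poly.snd poly_unpair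
  have hw : Poly (fun y => (unpair y).1) := Poly.fst poly_unpair
  have h1 : Poly (fun z => false :: cS e (unpair z).1.length (unpair z).2) :=
    Poly.cons (NPC.Poly.const false) (poly_cS e (UPoly.length hw) hx)
  have key : ∀ x : List Bool,
      P.A κ (false :: cS e ((x.length + 2) ^ (C * (α x.length + 1))) x) = true ↔
      ∃ φ, IsState φ ∧ 1 / 2 ≤ (P.G e).acc (P.A κ) (P.V κ) x φ := by
    intro x
    have h4 : (P.S e).eval x.length ^ (P.b ((P.S e).eval x.length) + 1) ≤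
        (x.length + 2) ^ (C * (α x.length + 1)) := by
      rw [hb]
      exact hC x.length
    refine (A_on P κ (Ix.far e _ x h4)).trans ?_
    refine exists_congr fun φ => and_congr_right fun _ => ?_
    have hs1 : 1 ≤ (P.S e).eval x.length := le_trans (by omega) (P.big e _)
    rw [acc_congr (P.siz e x.length).2.1 (fun _ _ => rfl) (U' := P.V κ) (fun k hk => ?_)]
    rw [Par.U_pos, Par.V_mat]
    exact (P.hfar _ k hs1 hk).trans h4
  refine ⟨{x | ∃ φ, IsState φ ∧ 1 / 2 ≤ (P.G e).acc (P.A κ) (P.V κ) x φ},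
    ⟨C, _, TH678.WP.isFP_ask' _ h1, fun x => ?_⟩, fun x hx => ?_, ?_⟩
  · simp only [unpair_pairBits, List.cons.injEq, and_true, List.length_replicate]
    exact (key x).symm
  · obtain ⟨φ, h2, h3⟩ := (hF x).1 hx
    exact ⟨φ, h2, by linarith⟩
  · rw [Set.disjoint_left]
    rintro x hx ⟨φ, h2, h3⟩
    have := (hF x).2 hx φ h2
    linarith

end Pool.Agent.H10x.QW
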