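import Pool.Agent.H10x.QW.Rand
import Pool.Agent.H9x.V1.Up

/-!
# The pair of oracles
-/

set_option autoImplicit false

namespace Pool.Agent.H10x.QW

open Pool.Agent.NPC Pool.Agent.H622R2 Pool.Agent.H620R2.Gauge Pool.Agent.H622R2.Exp
  Pool.Agent.TH678.ETH Pool.Agent.TH678.SETH Pool.Agent.TH678.RS Filter Finset
open Pool.Agent.H9x.Q (Basis bit ket)
open Pool.Agent.R562.QH (nrm nrm_sq nrm_nonneg nrm_add_le nrm_congr)

/-- indices of codes -/
inductive Ix (S : ℕ → Polynomial ℕ) (b : ℕ → ℕ) : Type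
  | ps (e : ℕ) (x : List Bool) : Ix S b
  | cw (e : ℕ) (x : List Bool) : Ix S b
  | far (e i : ℕ) (x : List Bool)
      (h : (S e).eval x.length ^ (b ((S e).eval x.length) + 1) ≤ i) : Ix S b

/-- addresses of codes -/
def cI {S : ℕ → Polynomial ℕ} {b : ℕ → ℕ} : Ix S b → List Bool
  | .ps e x => true :: true :: cS e ((S e).eval x.length) x
  | .cw e x => true :: false :: cS e ((S e).eval x.length) x
  | .far e i x _ => false :: cS e i x

theorem cI_inj (S : ℕ → Polynomial ℕ) (b : ℕ → ℕ) :
    Function.Injective (cI : Ix S b → List Bool) := by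
  intro p q h
  cases p <;> cases q <;> simp only [cI, List.cons.injEq, true_and, reduceCtorEq, false_and,
    and_false] at h
  · obtain ⟨rfl, _, rfl⟩ := cS_inj h
    rfl
  · obtain ⟨rfl, _, rfl⟩ := cS_inj h
    rfl
  · obtain ⟨rfl, rfl, rfl⟩ := cS_inj h
    rfl

/-- the enumerations and the bounds for the sizes -/
structure Par where
  /-- the algorithms with polynomial space -/
  g : ℕ → SAlg × Polynomial ℕ
  /-- the verifiers -/
  G : ℕ → Verifier
  /-- the lengths and the numbers of the quantifiers -/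
  H : ℕ → Polynomial ℕ × ℕ
  /-- the sizes -/
  S : ℕ → Polynomial ℕ
  /-- the exponents of the far codes -/
  b : ℕ → ℕ
  /-- the number of the qubits of the hidden states -/
  k : ℕ → ℕ
  /-- the lengths up to which the operator on `m` qubits is not noticed -/
  R : ℕ → ℕ
  surj_g : Function.Surjective g
  surj_G : Function.Surjective fun e => (G e, H e)
  hk : ∀ m, m / 2 + k m ≤ m
  hR : ∀ m, R m ≤ 1 ∨ 2 ^ 14 * R m ^ 3 ≤ 2 ^ k m
  mono : Monotone R
  hfar : ∀ s m, 1 ≤ s → m ≤ s → R m ≤ s ^ (b s + 1)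
  big : ∀ e n, n + e + 1 ≤ (S e).eval n
  loc : ∀ e (x a : List Bool), a.length ≤ (g e).2.eval x.length →
    ((g e).1.act (pairBits x a)).length ≤ (S e).eval x.length
  siz : ∀ e n, ((G e).circ n).length ≤ (S e).eval n ∧ Short ((S e).eval n) ((G e).circ n) ∧
    (G e).qubits n ≤ (S e).eval n

variable {P : Par}

/-- the unitary oracle where the operators with `s < R m` are replaced by the identity -/
noncomputable def Par.U (P : Par) (κ : Dat) (s : ℕ) : UOracle := uo P.k P.hk κ fun m => P.R m ≤ s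

/-- the unitary oracle -/
noncomputable def Par.V (P : Par) (κ : Dat) : UOracle := uo P.k P.hk κ fun _ => True

theorem Par.U_pos {κ : Dat} {m s : ℕ} (h : P.R m ≤ s) :
    (P.U κ s).mat m = refl (P.k m) (κ m).1 (κ m).2 := if_pos h

theorem Par.U_neg {κ : Dat} {m s : ℕ} (h : ¬ P.R m ≤ s) : (P.U κ s).mat m = 1 := if_neg h

theorem Par.V_mat (κ : Dat) (m : ℕ) : (P.V κ).mat m = refl (P.k m) (κ m).1 (κ m).2 :=
  if_pos trivial

/-- the content of a code -/
def Cont (P : Par) (κ : Dat) : Ix P.S P.b → Oracle → Prop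
  | .ps e x, A => CC.Acc (P.g e).1 (CC.cut ((P.S e).eval x.length) A) x
  | .cw e x, A => Alt ((P.H e).1.eval x.length)
      (fun w => 1 / 2 ≤ (P.G e).accC A (P.U κ ((P.S e).eval x.length)) x w) (P.H e).2 true []
  | .far e i x _, A => ∃ φ, IsState φ ∧ 1 / 2 ≤ (P.G e).acc A (P.U κ i) x φ

theorem acc_congr {F : Verifier} {x : List Bool} {B : ℕ} (hF : Short B (F.circ x.length))
    {A A' : Oracle} {U U' : UOracle}
    (h : ∀ y : List Bool, y.length ≤ B → A y = A' y) (hU : ∀ k ≤ B, U.mat k = U'.mat k)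
    (φ : Basis (F.wit.eval x.length) → ℂ) : F.acc A U x φ = F.acc A' U' x φ := by
  unfold Verifier.acc
  rw [run_congr h hU _ hF]

theorem lt_cI (P : Par) (p : Ix P.S P.b) : (match p with
    | .ps e x => (P.S e).eval x.length
    | .cw e x => (P.S e).eval x.length
    | .far _ i _ _ => i) < (cI p).length ∧ (match p with
    | .ps e x => (P.S e).eval x.length
    | .cw e x => (P.S e).eval x.length
    | .far e _ x _ => (P.S e).eval x.length) < (cI p).length := by
  cases p with
  | ps e x =>
    simp only [cI, List.length_cons, length_cS]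
    omega
  | cw e x =>
    simp only [cI, List.length_cons, length_cS]
    omega
  | far e i x h =>
    simp only [cI, List.length_cons, length_cS]
    have h1 : 1 ≤ (P.S e).eval x.length := le_trans (by omega) (P.big e _)
    have h3 : (P.S e).eval x.length ≤ i := (Nat.le_self_pow (by omega) _).trans h
    omega

theorem cont_congr (P : Par) {κ κ' : Dat} (p : Ix P.S P.b) {A A' : Oracle}
    (hκ : ∀ m, P.R m < (cI p).length → κ m = κ' m)
    (hA : ∀ z : List Bool, z.length < (cI p).length → A z = A' z) :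
    Cont P κ p A ↔ Cont P κ' p A' := by
  have h0 := lt_cI P p
  have hU : ∀ s, s < (cI p).length → ∀ k, (P.U κ s).mat k = (P.U κ' s).mat k := by
    intro s hs k
    by_cases h : P.R k ≤ s
    · rw [Par.U_pos h, Par.U_pos h, hκ k (by omega)]
    · rw [Par.U_neg h, Par.U_neg h]
  cases p with
  | ps e x =>
    simp only at h0
    have hcut : CC.cut ((P.S e).eval x.length) A = CC.cut ((P.S e).eval x.length) A' := by
      funext z
      unfold CC.cut
      split_ifs with hz
      · exact hA z (by omega)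
      · rfl
    simp only [Cont]
    rw [hcut]
  | cw e x =>
    simp only at h0
    simp only [Cont]
    have h1 : (fun w => 1 / 2 ≤ (P.G e).accC A (P.U κ ((P.S e).eval x.length)) x w) =
        fun w => 1 / 2 ≤ (P.G e).accC A' (P.U κ' ((P.S e).eval x.length)) x w := by
      funext w
      unfold Verifier.accC
      rw [acc_congr (P.siz e _).2.1 (fun y hy => hA y (by omega)) (fun k _ => hU _ h0.1 k)]
    rw [h1]
  | far e i x h =>
    simp only at h0
    simp only [Cont]
    refine exists_congr fun φ => ?_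
    rw [acc_congr (P.siz e _).2.1 (fun y hy => hA y (by omega)) (fun k _ => hU _ h0.1 k)]

theorem exists_A (P : Par) (κ : Dat) : ∃ A : Oracle, (∀ y, (∀ p : Ix P.S P.b, y ≠ cI p) →
    A y = false) ∧ ∀ p : Ix P.S P.b, A (cI p) = true ↔ Cont P κ p A := by
  obtain ⟨Φ, h1, h2⟩ := exists_fix (cI : Ix P.S P.b → List Bool) (cI_inj P.S P.b) (Cont P κ)
    (fun p A A' hA => cont_congr P p (fun _ _ => rfl) hA)
  exact ⟨Φ fun _ => false, h1 _, h2 _⟩

/-- the classical oracle -/
noncomputable def Par.A (P : Par) (κ : Dat) : Oracle := (exists_A P κ).choose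

theorem A_off (P : Par) (κ : Dat) (y : List Bool) (h : ∀ p : Ix P.S P.b, y ≠ cI p) :
    P.A κ y = false := (exists_A P κ).choose_spec.1 y h

theorem A_on (P : Par) (κ : Dat) (p : Ix P.S P.b) : P.A κ (cI p) = true ↔ Cont P κ p (P.A κ) :=
  (exists_A P κ).choose_spec.2 p

/-- **Locality.** -/
theorem A_loc (P : Par) {κ κ' : Dat} {N : ℕ} (h : ∀ m, P.R m < N → κ m = κ' m) :
    ∀ (n : ℕ) (q : List Bool), q.length = n → q.length ≤ N → P.A κ q = P.A κ' q := by
  intro n
  induction n using Nat.strong_induction_on with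
  | _ n ih =>
    intro q hq hqN
    by_cases hp : ∃ p : Ix P.S P.b, q = cI p
    · obtain ⟨p, rfl⟩ := hp
      rw [Bool.eq_iff_iff, A_on, A_on]
      exact cont_congr P p (fun m hm => h m (by omega)) fun z hz => ih z.length (by omega) z rfl
        (by omega)
    · push Not at hp
      rw [A_off P κ q hp, A_off P κ' q hp]

theorem A_loc' (P : Par) {κ κ' : Dat} {N : ℕ} (h : ∀ m, P.R m < N → κ m = κ' m) (q : List Bool)
    (hq : q.length ≤ N) : P.A κ q = P.A κ' q := A_loc P h _ q rfl hq

theorem U_loc (P : Par) {κ κ' : Dat} {s : ℕ} (h : ∀ m, P.R m ≤ s → κ m = κ' m) :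
    P.U κ s = P.U κ' s := by
  have h1 : (P.U κ s).mat = (P.U κ' s).mat := by
    funext k
    by_cases hk : P.R k ≤ s
    · rw [Par.U_pos hk, Par.U_pos hk, h k hk]
    · rw [Par.U_neg hk, Par.U_neg hk]
  cases h2 : P.U κ s
  cases h3 : P.U κ' s
  rw [h2, h3] at h1
  simp only at h1
  subst h1
  rfl

end Pool.Agent.H10x.QW
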